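import Pool.Agent.H64.XG.Main
import Pool.Agent.H64.XG.Nvg
import Pool.Agent.H56.END.Chm

/-!
# THEOREM DIM, the planar theorem (any number of Julia critical points): (NV*) implies `ROBm` (H56/END/Chm)
-/

set_option autoImplicit false

open Filter Topology Metric Set MeasureTheory

namespace Pool.Agent.H64.XG

open Pool.Agent.H56.UD
open Pool.Agent.H66.DIM (Mn Tz Rg Clu)

theorem robm_of (hNV : NVP) : Pool.Agent.H56.END.ROBm := by
  intro f U J P Cr M E δ η r₀ X hh μ b0 h hX hM hMC htd hCP hPM hrec hRg hClu z hz hTz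
  obtain ⟨c, hc, hcM, θ, θ₁, C, h0, h1, h2, hC, hall⟩ := hNV h hM hMC htd hCP hPM hrec hRg hClu
  obtain ⟨ε, m, y, χ, g, hN, hy⟩ := nvs_of h hc h0 h1 h2 hC (hall z (hX.EJ hz) hTz)
  exact x_false h hX hM hCP (rec_in hM fun c hc ε hε => by
    obtain ⟨n, h1, h2⟩ := hrec c hc ε hε
    exact ⟨n, h1, h2⟩) hz hTz hc hcM hN hy

end Pool.Agent.H64.XG
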