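import Pool.Agent.H64.XL.Defs
import Pool.Agent.H56.WP.Defs
import Pool.Agent.H66.DIM.If

/-!
# ROB => DIM for any number of Julia critical points (think 1880), chapter X*: definitions

`Tg`: towers of windows = the full pull back of the base window `χ 0` along the orbit of `z` from its first visit `t 0` in
`χ 0 '' ball 0 r`: critical times `t 1 > t 2 > ..`, critical points `cc i`, windows `χ i` around `cc i` of degree `2 ^ i` over `χ 0`,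
`γ i` = the univalent pull back of `χ i` to the time `t (i+1) + 1`, `f ∘ χ (i+1) = γ i ∘ Bl 1 (α i)`.
`ϑ f t γ τ u`: the window at the time `τ`, `t (u+1) < τ ≤ t u`, univalent over `χ u`.
`Bc u j`: composition of `Bl (α u), .., Bl (α (u+j-1))`.
`Tq`: one window crossing `χ 0` (the data for sizes, crossings and limits).
(Regular points of the limit: `Rq`, H65/MP/Defs.)
-/

set_option autoImplicit false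

open Filter Topology Metric Set MeasureTheory

namespace Pool.Agent.H64.XG

open Pool.Agent.H56.UD (dm Fn Dn Pn Ph Gd Bq)
open Pool.Agent.H66.GEO (Bl BB)
open Pool.Agent.H64.XL (b1 Wt)

/-- towers: the full pull back of `χ 0` along `z` -/
structure Tg (f : ℂ → ℂ) (U M P Cr : Set ℂ) (z : ℂ) (θ r : ℝ) (s : ℕ) (k t : ℕ → ℕ) (cc α x : ℕ → ℂ) (χ γ : ℕ → ℂ → ℂ) :
    Prop where
  d : ∀ i ≤ s, DifferentiableOn ℂ (χ i) (ball 0 1)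
  i : ∀ i ≤ s, InjOn (χ i) (ball 0 1)
  c0 : ∀ i ≤ s, χ i 0 = cc i ∧ cc i ∈ Cr ∧ cc i ∈ M
  hU : ∀ i ≤ s, ∀ v ∈ ball (0 : ℂ) 1, χ i v ∈ U
  sy : ∀ i ≤ s, ∀ v ∈ ball (0 : ℂ) 1, f (χ i (-v)) = f (χ i v)
  kp : ∀ i < s, 1 ≤ k i ∧ t i = t (i + 1) + k i
  gd : ∀ i < s, DifferentiableOn ℂ (γ i) (ball 0 1)
  gs : ∀ i < s, ∀ v ∈ ball (0 : ℂ) 1, (∀ j < k i - 1, f^[j] (γ i v) ∈ U) ∧ f^[k i - 1] (γ i v) = χ i v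
  st : ∀ i < s, ∀ v ∈ ball (0 : ℂ) 1, f (χ (i + 1) v) = γ i (Bl 1 (α i) v)
  al : ∀ i < s, ‖α i‖ < 1
  cv : ∀ i < s, ‖BB b1 α i (α i)‖ ≤ θ
  of : ∀ i ≤ s, ∀ v ∈ ball (0 : ℂ) 1, θ < ‖BB b1 α i v‖ → χ i v ∉ P
  tm : ∀ i ≤ s, x i ∈ ball (0 : ℂ) 1 ∧ ‖BB b1 α i (x i)‖ < r ∧ χ i (x i) = f^[t i] z
  tg : ∀ i < s, γ i (x i) = f^[t (i + 1) + 1] z
  fe : ∀ m < t 0, f^[m] z ∉ χ 0 '' ball 0 r

/-- the window at the time `τ`, `t (u+1) < τ ≤ t u` -/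
noncomputable def ϑ (f : ℂ → ℂ) (t : ℕ → ℕ) (γ : ℕ → ℂ → ℂ) (τ u : ℕ) (v : ℂ) : ℂ := f^[τ - t (u + 1) - 1] (γ u v)

/-- compositions of the degree two maps: from the level `u + j` to the level `u` -/
noncomputable def Bc (α : ℕ → ℂ) (u : ℕ) : ℕ → ℂ → ℂ
  | 0, x => x
  | j + 1, x => Bc α u j (Bl 1 (α (u + j)) x)

/-- one window `Θ`, of degree `2 ^ u` over the base window `χ0` by `f^κ`, with the point `Θ x` outside `χ0 '' ball 0 r` and a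
common point `Θ w = χ0 w0` in both cores -/
structure Tq (f : ℂ → ℂ) (U P : Set ℂ) (θ r : ℝ) (u κ : ℕ) (α : ℕ → ℂ) (χ0 Θ : ℂ → ℂ) (x w w0 : ℂ) : Prop where
  d : DifferentiableOn ℂ Θ (ball 0 1)
  i : InjOn Θ (ball 0 1)
  kp : 1 ≤ κ
  st : ∀ v ∈ ball (0 : ℂ) 1, (∀ j < κ, f^[j] (Θ v) ∈ U) ∧ f^[κ] (Θ v) = χ0 (BB b1 α u v)
  al : ∀ i < u, ‖α i‖ < 1
  cv : ∀ i < u, ‖BB b1 α i (α i)‖ ≤ θ
  of : ∀ v ∈ ball (0 : ℂ) 1, θ < ‖BB b1 α u v‖ → Θ v ∉ P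
  x1 : x ∈ ball (0 : ℂ) 1 ∧ ‖BB b1 α u x‖ < r ∧ Θ x ∉ χ0 '' ball 0 r
  w1 : w ∈ ball (0 : ℂ) 1 ∧ ‖BB b1 α u w‖ ≤ θ ∧ ‖w0‖ ≤ θ ∧ Θ w = χ0 w0

/-- LEMMA A for all critical points in `M` (think 1880, section 3): no small window with a critical point of `M` in its core has a
univalent pull back with `z` at bounded distance -/
def LAs (f : ℂ → ℂ) (U J P M Cr : Set ℂ) (δ : ℝ) (z : ℂ) : Prop :=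
  ∀ θ C : ℝ, 0 < θ → θ < 1 → ∀ b ∈ Cr, b ∈ M → ∃ ε0 : ℝ, 0 < ε0 ∧ ∀ (K m : ℕ) (y a : ℂ) (ε : ℝ) (Φ g : ℂ → ℂ), y ∈ J → ε ≤ ε0 →
    Pool.Agent.H56.WP.Wd f U J P δ K θ y ε Φ → ‖a‖ ≤ θ → Φ a = b → DifferentiableOn ℂ g (ball 0 1) →
    (∀ v ∈ ball (0 : ℂ) 1, g v ∈ dm f U J δ (m + K) ∧ f^[m] (g v) = Φ v) → ¬ ‖g 0 - z‖ ≤ C * ‖deriv g 0‖

/-- the level of the pull back at the time `t m + (t 0 - t l)` -/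
noncomputable def Nn (t : ℕ → ℕ) (m l : ℕ) : ℕ := Nat.findGreatest (fun u => t m + (t 0 - t l) ≤ t u) m

/-- sequences of towers with heights `S n → ∞`; `bb`, `uu`: the limits of the critical points and of the levels -/
structure TGs (𝒰 : Ultrafilter ℕ) (f : ℂ → ℂ) (U J M P Cr : Set ℂ) (δ : ℝ) (c z : ℂ) (θ r Mc : ℝ) (ε : ℕ → ℝ) (S : ℕ → ℕ)
    (k t : ℕ → ℕ → ℕ) (cc α x : ℕ → ℕ → ℂ) (χ γ : ℕ → ℕ → ℂ → ℂ) (bb : ℕ → ℂ) (uu : ℕ → ℕ → ℕ) : Prop where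
  θ0 : 0 < θ
  θr : θ < r
  r1 : r < 1
  M1 : 1 ≤ Mc
  cM : c ∈ M
  cC : c ∈ Cr
  εt : Tendsto ε (𝒰 : Filter ℕ) (𝓝 0)
  w : ∀ᶠ n in (𝒰 : Filter ℕ), Wt f U J P δ c θ Mc (ε n) (χ n 0)
  tw : ∀ᶠ n in (𝒰 : Filter ℕ), Tg f U M P Cr z θ r (S n) (k n) (t n) (cc n) (α n) (x n) (χ n) (γ n)
  St : ∀ s : ℕ, ∀ᶠ n in (𝒰 : Filter ℕ), s ≤ S n
  bc : ∀ s : ℕ, ∀ᶠ n in (𝒰 : Filter ℕ), cc n s = bb s
  uc : ∀ m l : ℕ, ∀ᶠ n in (𝒰 : Filter ℕ), Nn (t n) m l = uu m l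

/-- the scale -/
noncomputable def Rn (χ : ℕ → ℕ → ℂ → ℂ) (n : ℕ) : ℂ := deriv (χ n 0) 0

/-- the windows `T_(m,l)` at the stage `n`, in the scale -/
noncomputable def Θn (f : ℂ → ℂ) (c : ℂ) (t : ℕ → ℕ → ℕ) (χ γ : ℕ → ℕ → ℂ → ℂ) (uu : ℕ → ℕ → ℕ) (m l n : ℕ) (v : ℂ) : ℂ :=
  (ϑ f (t n) (γ n) (t n m + (t n 0 - t n l)) (uu m l) v - c) / Rn χ n

/-- the iterates on `T_(m,l)` at the stage `n`, in the scale -/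
noncomputable def Ft (f : ℂ → ℂ) (c : ℂ) (t : ℕ → ℕ → ℕ) (χ : ℕ → ℕ → ℂ → ℂ) (m l n : ℕ) (w : ℂ) : ℂ :=
  (f^[t n l - t n m] (c + Rn χ n * w) - c) / Rn χ n

/-- the limits: `φ0` of the base windows, `Θ m l` of the windows `T_(m,l)` (`0 < l < m`, `bb l = bb m`), `F m l : T_(m,l) → X_0` -/
structure TL (𝒰 : Ultrafilter ℕ) (f : ℂ → ℂ) (U J P : Set ℂ) (δ : ℝ) (c : ℂ) (θ r : ℝ) (κc Cc : ℕ → ℝ) (t : ℕ → ℕ → ℕ)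
    (α : ℕ → ℕ → ℂ) (χ γ : ℕ → ℕ → ℂ → ℂ) (bb : ℕ → ℂ) (uu : ℕ → ℕ → ℕ) (φ0 : ℂ → ℂ) (Θ F : ℕ → ℕ → ℂ → ℂ) (α' : ℕ → ℂ) :
    Prop where
  cα : ∀ s, Tendsto (fun n => α n s) (𝒰 : Filter ℕ) (𝓝 (α' s))
  hα : ∀ s, ‖α' s‖ < 1
  cv : ∀ s, ‖BB b1 α' s (α' s)‖ ≤ θ
  cφ : TendstoLocallyUniformlyOn (fun n v => (χ n 0 v - c) / Rn χ n) φ0 (𝒰 : Filter ℕ) (ball 0 1)
  zφ : φ0 0 = 0
  dφ : DifferentiableOn ℂ φ0 (ball 0 1)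
  iφ : InjOn φ0 (ball 0 1)
  oφ : ∀ x ∈ ball (0 : ℂ) 1, φ0 (-x) = - φ0 x
  bφ : Bornology.IsBounded (φ0 '' ball 0 1)
  fφ : ∀ x ∈ ball (0 : ℂ) 1, θ < ‖x‖ → φ0 x ∉ Ph 𝒰 (Pn P (fun _ => c) (Rn χ))
  κ0 : ∀ u, 0 < κc u
  cθ : ∀ m l, 0 < l → l < m → bb l = bb m → TendstoLocallyUniformlyOn (Θn f c t χ γ uu m l) (Θ m l) (𝒰 : Filter ℕ) (ball 0 1)
  dθ : ∀ m l, 0 < l → l < m → bb l = bb m → DifferentiableOn ℂ (Θ m l) (ball 0 1)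
  iθ : ∀ m l, 0 < l → l < m → bb l = bb m → InjOn (Θ m l) (ball 0 1)
  sθ : ∀ m l, 0 < l → l < m → bb l = bb m → κc (uu m l) ≤ ‖deriv (Θ m l) 0‖ ∧ ‖deriv (Θ m l) 0‖ ≤ Cc (uu m l) ∧
    ‖Θ m l 0‖ ≤ Cc (uu m l)
  fθ : ∀ m l, 0 < l → l < m → bb l = bb m → ∀ x ∈ ball (0 : ℂ) 1, θ < ‖BB b1 α' (uu m l) x‖ →
    Θ m l x ∉ Ph 𝒰 (Pn P (fun _ => c) (Rn χ))
  rel : ∀ m l, 0 < l → l < m → bb l = bb m → ∀ x ∈ ball (0 : ℂ) 1, F m l (Θ m l x) = φ0 (BB b1 α' (uu m l) x)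
  dF : ∀ m l, 0 < l → l < m → bb l = bb m → DifferentiableOn ℂ (F m l) (Θ m l '' ball 0 1)
  cF : ∀ m l, 0 < l → l < m → bb l = bb m → TendstoLocallyUniformlyOn (Ft f c t χ m l) (F m l) (𝒰 : Filter ℕ) (Θ m l '' ball 0 1)
  dm : ∀ m l, 0 < l → l < m → bb l = bb m → ∀ K : Set ℂ, IsCompact K → K ⊆ Θ m l '' ball 0 1 → ∀ᶠ n in (𝒰 : Filter ℕ), ∀ w ∈ K,
    c + Rn χ n * w ∈ dm f U J δ (t n l - t n m)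
  cr : ∀ m l, 0 < l → l < m → bb l = bb m → ∃ x y : ℂ, ‖x‖ = r ∧ ‖y‖ < 1 ∧ ‖BB b1 α' (uu m l) y‖ = r ∧ Θ m l y = φ0 x
  cm : ∀ m l, 0 < l → l < m → bb l = bb m → ∃ w : ℂ, ‖w‖ < 1 ∧ Θ m l w = φ0 (BB b1 α' l 0) ∧ BB b1 α' (uu m l) w = BB b1 α' m 0

end Pool.Agent.H64.XG
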