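import Pool.Agent.H64.XG.Tqx
import Pool.Agent.H41.XG.Unb

/-!
# Chapter X*: the levels `uu m l` are unbounded (G4, think 1880 section 4)

PROOF. `B = {s | bb s = b ∧ 0 < s}`. `g4` (H41/XG/Unb) for the windows `T_(s,l)`, `l < s` in `B`, with the times `t 0 - t s`: if the levels are bounded along `𝒰`, there are
`k < l < m` in `B` with `N l k = N m k = N m l = u` and the centre of `T_(l,k)` in `T_(m,k)` (an ultrafilter on `B`, H41/XG/Comb), which is impossible at a finite stage (H41/XG/Fin):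
`f^κ`, `κ = t k - t l`, is injective on `T_(m,k)` (`tt_rel`: `f^κ ∘ ϑ_(m,k) = ϑ_(m,l)`). `u ≥ 1`: the centre of `T_(l,k)` is a critical point of `f^κ`. `u = 0`: it is mapped to `c`, so
`c ∈ T_(m,l)`, but `f^(t l - t m)` is injective on `T_(m,l)`.
-/

set_option autoImplicit false

open Filter Topology Metric Set MeasureTheory

namespace Pool.Agent.H64.XG

open Pool.Agent.H56.UD
open Pool.Agent.H66.GEO (Bl BB)
open Pool.Agent.H64.XL (b1 Wt)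
open Pool.Agent.H66.DIM (Mn)

variable {𝒰 : Ultrafilter ℕ} {f : ℂ → ℂ} {U J M P Cr : Set ℂ} {δ : ℝ} {η : ℂ → ℂ → ℂ} {ρ : ℝ} {c z : ℂ} {θ r Mc : ℝ}
  {ε : ℕ → ℝ} {S : ℕ → ℕ} {k t : ℕ → ℕ → ℕ} {cc α x : ℕ → ℕ → ℂ} {χ γ : ℕ → ℕ → ℂ → ℂ} {bb : ℕ → ℂ} {uu : ℕ → ℕ → ℕ}

/-- `f^(t 0 - t l)` maps the window `χ l` over the base window -/
private theorem tg_it {s : ℕ} {k t : ℕ → ℕ} {cc α x : ℕ → ℂ} {χ γ : ℕ → ℂ → ℂ}
    (hT : Tg f U M P Cr z θ r s k t cc α x χ γ) {l : ℕ} (hl : l ≤ s) :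
    t l ≤ t 0 ∧ ∀ v ∈ ball (0 : ℂ) 1, f^[t 0 - t l] (χ l v) = χ 0 (BB b1 α l v) := by
  induction l with
  | zero =>
    refine ⟨le_rfl, fun v _ => ?_⟩
    rw [Nat.sub_self]
    rfl
  | succ l ih =>
    obtain ⟨h1, h2⟩ := ih (by omega)
    obtain ⟨h3, h4⟩ := hT.kp l hl
    refine ⟨by omega, fun v hv => ?_⟩
    have h5 : t 0 - t (l + 1) = (t 0 - t l) + ((k l - 1) + 1) := by omega
    have h6 : Bl 1 (α l) v ∈ ball (0 : ℂ) 1 :=
      mem_ball_zero_iff.2 (Pool.Agent.H3.SZ.bl_lt (hT.al l hl) (mem_ball_zero_iff.1 hv))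
    rw [h5, Function.iterate_add_apply, Function.iterate_succ_apply, hT.st l hl v hv, (hT.gs l hl _ h6).2, h2 _ h6]
    rfl

theorem nub (h : PS f U J P Cr δ η ρ) (_hM : Mn f P M)
    (hT : TGs 𝒰 f U J M P Cr δ c z θ r Mc ε S k t cc α x χ γ bb uu) {b : ℂ} (hb : {s | bb s = b}.Infinite) (N0 : ℕ) :
    ∃ l m : ℕ, 0 < l ∧ l < m ∧ bb l = b ∧ bb m = b ∧ N0 ≤ uu m l := by
  have hB : ({s | bb s = b} \ {0}).Infinite := hb.sdiff (Set.finite_singleton 0)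
  have h1 : ∀ m ∈ {s | bb s = b} \ {0}, ∀ l ∈ {s | bb s = b} \ {0}, l < m → ∀ᶠ n in (𝒰 : Filter ℕ),
      Pool.Agent.H3.SZ2.TT f U P θ r (χ n 0) (α n) (Nn (t n) m l) ((t n 0 - t n m) - (t n 0 - t n l))
        (ϑ f (t n) (γ n) (t n m + (t n 0 - t n l)) (Nn (t n) m l)) := by
    intro m hm l hl hlm
    have hl0 : 0 < l := Nat.pos_of_ne_zero hl.2
    filter_upwards [hT.tw, hT.St m, hT.bc m, hT.bc l] with n n1 n2 n3 n4
    have hcc : cc n l = cc n m := by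
      rw [n3, n4]
      exact hl.1.trans hm.1.symm
    have q1 := tg_it n1 (hlm.le.trans n2)
    have q2 := tg_it n1 n2
    have q3 : t n 0 - t n m - (t n 0 - t n l) = t n l - t n m := by omega
    obtain ⟨w, hw, -⟩ : ∃ w : ℂ, Tq f U P θ r (Nn (t n) m l) (t n l - t n m) (α n) (χ n 0)
        (ϑ f (t n) (γ n) (t n m + (t n 0 - t n l)) (Nn (t n) m l)) (x n (Nn (t n) m l)) w (BB b1 (α n) l 0) ∧
          BB b1 (α n) (Nn (t n) m l) w = BB b1 (α n) m 0 := by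
      apply tq_of <;> assumption
    rw [q3]
    refine ⟨hw.d, hw.i, hw.al, hw.cv, hw.kp, fun v hv => (hw.st v hv).1, fun v hv => (hw.st v hv).2, hw.of, ?_, ?_⟩
    · exact ⟨BB b1 (α n) l 0, w, hw.w1.2.2.1, mem_ball_zero_iff.1 hw.w1.1, hw.w1.2.1, hw.w1.2.2.2⟩
    · exact ⟨x n (Nn (t n) m l), mem_ball_zero_iff.1 hw.x1.1, hw.x1.2.1, hw.x1.2.2⟩
  have h2 : ∀ k ∈ {s | bb s = b} \ {0}, ∀ l ∈ {s | bb s = b} \ {0}, ∀ m ∈ {s | bb s = b} \ {0}, k < l → l < m →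
      ∀ᶠ n in (𝒰 : Filter ℕ), Nn (t n) m k = Nn (t n) m l → ∀ v ∈ ball (0 : ℂ) 1,
        f^[(t n 0 - t n l) - (t n 0 - t n k)] (ϑ f (t n) (γ n) (t n m + (t n 0 - t n k)) (Nn (t n) m k) v) =
          ϑ f (t n) (γ n) (t n m + (t n 0 - t n l)) (Nn (t n) m l) v := by
    intro k hk l hl m hm hkl hlm
    have hk0 : 0 < k := Nat.pos_of_ne_zero hk.2
    filter_upwards [hT.tw, hT.St m] with n n1 n2
    intro hNN v hv
    have hkm : k < m := hkl.trans hlm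
    have q1 := tg_it n1 (l := k) (by omega)
    have q2 := tg_it n1 (l := l) (by omega)
    have q4 := tg_t n1 hkl (by omega)
    have q3 : t n 0 - t n l - (t n 0 - t n k) = t n k - t n l := by omega
    have q5 : Nn (t n) m k < m ∧ t n (Nn (t n) m k + 1) < t n m + (t n 0 - t n k) ∧
        t n m + (t n 0 - t n k) ≤ t n (Nn (t n) m k) := by
      apply nn_spec <;> assumption
    rw [q3, tt_rel n1 hkl hlm n2 q5.2.1 v, hNN]
  obtain ⟨m, hm, l, hl, hlm, hN⟩ := Pool.Agent.H41.XG.g4 h hT.cC hT.M1 hT.θ0.le hT.θr hT.r1 hT.εt (χ := fun n => χ n 0) hT.w hB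
    (α := α) (K := fun n s => t n 0 - t n s) (N := fun n s l => Nn (t n) s l)
    (τ := fun n s l => ϑ f (t n) (γ n) (t n s + (t n 0 - t n l)) (Nn (t n) s l)) h1 h2 N0
  obtain ⟨n, n1, n2⟩ := (hN.and (hT.uc m l)).exists
  refine ⟨l, m, Nat.pos_of_ne_zero hl.2, hlm, hl.1, hm.1, ?_⟩
  rw [← n2]
  exact n1.le

end Pool.Agent.H64.XG
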