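import Pool.Agent.H64.XG.Defs
import Pool.Agent.H3.SZ.Tow
import Pool.Agent.H3.SZ2.Tt

/-!
# Chapter X*: the windows `T_(m,l)` of a tower, sizes and crossing (G2)

`τ = t m + (t 0 - t l)`, `K_l = t 0 - t l`, `b = cc m = cc l`. `f^(K_l) (b) = χ 0 (BB l 0) ∈ M`, in the core of `χ 0`. Starting from `χ m 0 = b` at the time `t m`:
`f^(τ - t m) (χ m v) = ϑ f t γ τ u (Bc α u (m - u) v)` (`st`, `gs`); so `w = Bc α u (m - u) 0`, `BB u w = BB m 0`. `ϑ (x u) = f^τ z`, `τ < t 0`: not in `χ 0 '' ball 0 r` (`fe`).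
`tq_sz`, `tq_cr`: as in H3/SZ (`noattr`, Koebe, `cross`): constants depend on `θ, r, Mc, u` only.
-/

set_option autoImplicit false

open Filter Topology Metric Set MeasureTheory

namespace Pool.Agent.H64.XG

open Pool.Agent.H56.UD
open Pool.Agent.H66.GEO (Bl BB)
open Pool.Agent.H64.XL (b1 Wt)
open Pool.Agent.H66.DIM (Mn)

variable {f : ℂ → ℂ} {U J M P Cr : Set ℂ} {δ : ℝ} {η : ℂ → ℂ → ℂ} {ρ : ℝ} {c z : ℂ} {θ r Mc : ℝ} {s : ℕ} {k t : ℕ → ℕ}
  {cc α x : ℕ → ℂ} {χ γ : ℕ → ℂ → ℂ}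

theorem tg_t (hT : Tg f U M P Cr z θ r s k t cc α x χ γ) {i j : ℕ} (hij : i < j) (hj : j ≤ s) : t j < t i := by
  induction j with
  | zero => omega
  | succ j ih =>
    have h1 := hT.kp j (by omega)
    rcases Nat.lt_or_ge i j with h2 | h2
    · have h3 := ih h2 (by omega)
      omega
    · have h3 : i = j := by omega
      rw [h3]
      omega

/-- the level (`0 < l`: for `l = 0` the level is `m`) -/
theorem nn_spec (hT : Tg f U M P Cr z θ r s k t cc α x χ γ) {l m : ℕ} (hl0 : 0 < l) (hl : l < m) (hm : m ≤ s) :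
    Nn t m l < m ∧ t (Nn t m l + 1) < t m + (t 0 - t l) ∧ t m + (t 0 - t l) ≤ t (Nn t m l) := by
  have h1 := tg_t hT hl hm
  have h2 := tg_t hT hl0 (by omega : l ≤ s)
  have h3 : t m + (t 0 - t l) ≤ t (Nn t m l) :=
    Nat.findGreatest_spec (P := fun u => t m + (t 0 - t l) ≤ t u) (Nat.zero_le m) (by omega)
  have h4 : Nn t m l ≤ m := Nat.findGreatest_le m
  have h5 : Nn t m l < m := by
    rcases Nat.lt_or_ge (Nn t m l) m with h6 | h6
    · exact h6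
    · have h7 : Nn t m l = m := le_antisymm h4 h6
      rw [h7] at h3
      omega
  refine ⟨h5, ?_, h3⟩
  have h6 : ¬ t m + (t 0 - t l) ≤ t (Nn t m l + 1) :=
    Nat.findGreatest_is_greatest (P := fun u => t m + (t 0 - t l) ≤ t u) (Nat.lt_succ_self _) (by omega)
  omega

/-- the level decreases with `l` -/
theorem nn_anti (hT : Tg f U M P Cr z θ r s k t cc α x χ γ) {l l' m : ℕ} (h1 : l ≤ l') (h2 : l' < m) (hm : m ≤ s) :
    Nn t m l' ≤ Nn t m l := by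
  refine Nat.findGreatest_mono_left (fun u hu => ?_) m
  rcases Nat.eq_or_lt_of_le h1 with h3 | h3
  · rw [h3]
    exact hu
  · have h4 := tg_t hT h3 (by omega : l' ≤ s)
    have h5 : t m + (t 0 - t l') ≤ t u := hu
    show t m + (t 0 - t l) ≤ t u
    omega

/-- transitions inside the same level -/
theorem tt_rel {l l' m u : ℕ} (hT : Tg f U M P Cr z θ r s k t cc α x χ γ) (h1 : l < l') (h2 : l' < m) (hm : m ≤ s)
    (hu : t (u + 1) < t m + (t 0 - t l)) (v : ℂ) :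
    f^[t l - t l'] (ϑ f t γ (t m + (t 0 - t l)) u v) = ϑ f t γ (t m + (t 0 - t l')) u v := by
  have h3 := tg_t hT h1 (by omega : l' ≤ s)
  have h4 : t l ≤ t 0 := by
    rcases Nat.eq_zero_or_pos l with h5 | h5
    · rw [h5]
    · exact (tg_t hT h5 (by omega : l ≤ s)).le
  unfold ϑ
  rw [← Function.iterate_add_apply]
  congr 1
  have h5 : t l - t l' + (t m + (t 0 - t l) - t (u + 1) - 1) = t m + (t 0 - t l') - t (u + 1) - 1 := by omega
  rw [h5]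

/-- `Bc` maps the disc to itself -/
theorem bc_lt {u : ℕ} : ∀ {j : ℕ}, (∀ i < u + j, ‖α i‖ < 1) → ∀ v ∈ ball (0 : ℂ) 1, Bc α u j v ∈ ball (0 : ℂ) 1
  | 0, _, _, hv => hv
  | j + 1, ha, v, hv => by
    have h1 : Bl 1 (α (u + j)) v ∈ ball (0 : ℂ) 1 :=
      mem_ball_zero_iff.2 (Pool.Agent.H3.SZ.bl_lt (ha (u + j) (by omega)) (mem_ball_zero_iff.1 hv))
    exact bc_lt (j := j) (fun i hi => ha i (by omega)) _ h1

theorem bb_bc {u : ℕ} : ∀ (j : ℕ) (v : ℂ), BB b1 α u (Bc α u j v) = BB b1 α (u + j) v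
  | 0, _ => rfl
  | j + 1, v => bb_bc j (Bl 1 (α (u + j)) v)

theorem bc_succ {u : ℕ} : ∀ (j : ℕ) (v : ℂ), Bc α u (j + 1) v = Bl 1 (α u) (Bc α (u + 1) j v)
  | 0, _ => rfl
  | j + 1, v => by
    have h1 : u + 1 + j = u + (j + 1) := by omega
    show Bc α u (j + 1) (Bl 1 (α (u + (j + 1))) v) = Bl 1 (α u) (Bc α (u + 1) j (Bl 1 (α (u + 1 + j)) v))
    rw [bc_succ j, h1]

/-- one step of the tower -/
theorem tg_k (hT : Tg f U M P Cr z θ r s k t cc α x χ γ) {i : ℕ} (hi : i < s) {v : ℂ} (hv : v ∈ ball (0 : ℂ) 1) :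
    (∀ j < k i, f^[j] (χ (i + 1) v) ∈ U) ∧ f^[k i] (χ (i + 1) v) = χ i (Bl 1 (α i) v) := by
  have h1 := (hT.kp i hi).1
  have h2 : Bl 1 (α i) v ∈ ball (0 : ℂ) 1 :=
    mem_ball_zero_iff.2 (Pool.Agent.H3.SZ.bl_lt (hT.al i hi) (mem_ball_zero_iff.1 hv))
  have h3 := hT.gs i hi _ h2
  have h4 := hT.st i hi v hv
  constructor
  · intro j hj
    rcases Nat.eq_zero_or_pos j with h5 | h5
    · rw [h5]
      exact hT.hU (i + 1) hi v hv
    · obtain ⟨j', rfl⟩ := Nat.exists_eq_add_of_le' h5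
      rw [Function.iterate_succ_apply, h4]
      exact h3.1 j' (by omega)
  · have h5 : k i = (k i - 1) + 1 := by omega
    rw [h5, Function.iterate_succ_apply, h4]
    exact h3.2

theorem tg_up (hT : Tg f U M P Cr z θ r s k t cc α x χ γ) {u : ℕ} : ∀ {j : ℕ}, u + j ≤ s → ∀ v ∈ ball (0 : ℂ) 1,
    (∀ i < t u - t (u + j), f^[i] (χ (u + j) v) ∈ U) ∧ f^[t u - t (u + j)] (χ (u + j) v) = χ u (Bc α u j v)
  | 0, _, v, _ => by
    constructor
    · intro i hi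
      rw [add_zero, Nat.sub_self] at hi
      omega
    · rw [add_zero, Nat.sub_self]
      rfl
  | j + 1, hj, v, hv => by
    have h1 := hT.kp (u + j) (by omega)
    have h2 := tg_k hT (i := u + j) (by omega) hv
    have h3 : Bl 1 (α (u + j)) v ∈ ball (0 : ℂ) 1 :=
      mem_ball_zero_iff.2 (Pool.Agent.H3.SZ.bl_lt (hT.al (u + j) (by omega)) (mem_ball_zero_iff.1 hv))
    have h4 := tg_up hT (u := u) (j := j) (by omega) _ h3
    have h5 : t (u + j) ≤ t u := by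
      rcases Nat.eq_zero_or_pos j with h6 | h6
      · rw [h6, add_zero]
      · exact (tg_t hT (by omega : u < u + j) (by omega)).le
    have h6 : t u - t (u + (j + 1)) = (t u - t (u + j)) + k (u + j) := by
      have : u + (j + 1) = (u + j) + 1 := by omega
      rw [this]
      omega
    have h7 : χ (u + (j + 1)) v = χ ((u + j) + 1) v := rfl
    rw [h6, h7]
    constructor
    · intro i hi
      rcases Nat.lt_or_ge i (k (u + j)) with h8 | h8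
      · exact h2.1 i h8
      · obtain ⟨i', rfl⟩ := Nat.exists_eq_add_of_le' h8
        rw [Function.iterate_add_apply, h2.2]
        exact h4.1 i' (by omega)
    · rw [Function.iterate_add_apply, h2.2]
      exact h4.2

/-- the window at the time `τ` -/
theorem th_up (hT : Tg f U M P Cr z θ r s k t cc α x χ γ) {u τ : ℕ} (hu : u < s) (h1 : t (u + 1) < τ) (h2 : τ ≤ t u) {v : ℂ}
    (hv : v ∈ ball (0 : ℂ) 1) : (∀ j < t u - τ, f^[j] (ϑ f t γ τ u v) ∈ U) ∧ f^[t u - τ] (ϑ f t γ τ u v) = χ u v := by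
  have h3 := hT.kp u hu
  have h4 := hT.gs u hu v hv
  unfold ϑ
  constructor
  · intro j hj
    rw [← Function.iterate_add_apply]
    exact h4.1 _ (by omega)
  · rw [← Function.iterate_add_apply]
    have h5 : t u - τ + (τ - t (u + 1) - 1) = k u - 1 := by omega
    rw [h5]
    exact h4.2

theorem th_diff (h : PS f U J P Cr δ η ρ) (hT : Tg f U M P Cr z θ r s k t cc α x χ γ) {u τ : ℕ} (hu : u < s)
    (h1 : t (u + 1) < τ) (h2 : τ ≤ t u) : DifferentiableOn ℂ (ϑ f t γ τ u) (ball 0 1) := by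
  have h3 := hT.kp u hu
  have key : ∀ a : ℕ, a ≤ k u - 1 → DifferentiableOn ℂ (fun v => f^[a] (γ u v)) (ball 0 1) := by
    intro a
    induction a with
    | zero => intro _; exact hT.gd u hu
    | succ a ih =>
      intro ha
      have h4 : (fun v => f^[a + 1] (γ u v)) = fun v => f (f^[a] (γ u v)) := by
        funext v
        rw [Function.iterate_succ_apply']
      rw [h4]
      exact h.fd.comp (ih (by omega)) fun v hv => (hT.gs u hu v hv).1 a (by omega)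
  exact key (τ - t (u + 1) - 1) (by omega)

theorem th_inj (hT : Tg f U M P Cr z θ r s k t cc α x χ γ) {u τ : ℕ} (hu : u < s)
    (h1 : t (u + 1) < τ) (h2 : τ ≤ t u) : InjOn (ϑ f t γ τ u) (ball 0 1) := by
  intro v hv w hw hvw
  refine hT.i u hu.le hv hw ?_
  rw [← (th_up hT hu h1 h2 hv).2, ← (th_up hT hu h1 h2 hw).2, hvw]

/-- from `χ m` to the window at the time `τ` -/
theorem th_of (hT : Tg f U M P Cr z θ r s k t cc α x χ γ) {u m τ : ℕ} (hu : u < m) (hm : m ≤ s) (h1 : t (u + 1) < τ)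
    {v : ℂ} (hv : v ∈ ball (0 : ℂ) 1) :
    f^[τ - t m] (χ m v) = ϑ f t γ τ u (Bc α u (m - u) v) := by
  obtain ⟨j, rfl⟩ := Nat.exists_eq_add_of_le (show u + 1 ≤ m from hu)
  have h3 := tg_up hT (u := u + 1) (j := j) hm v hv
  have hb : Bc α (u + 1) j v ∈ ball (0 : ℂ) 1 := bc_lt (fun i hi => hT.al i (by omega)) v hv
  have h4 := hT.st u (by omega) _ hb
  have h5 : t (u + 1 + j) ≤ t (u + 1) := by
    rcases Nat.eq_zero_or_pos j with h6 | h6
    · rw [h6, add_zero]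
    · exact (tg_t hT (by omega : u + 1 < u + 1 + j) hm).le
  have h6 : τ - t (u + 1 + j) = (τ - t (u + 1) - 1) + (1 + (t (u + 1) - t (u + 1 + j))) := by omega
  have h7 : u + 1 + j - u = j + 1 := by omega
  rw [h6, Function.iterate_add_apply, Function.iterate_add_apply, h3.2, Function.iterate_one, h4, h7, bc_succ]
  rfl

theorem bb_zero (hT : Tg f U M P Cr z θ r s k t cc α x χ γ) {m : ℕ} (h0 : 0 < m) (hm : m ≤ s) : ‖BB b1 α m 0‖ ≤ θ := by
  obtain ⟨j, rfl⟩ := Nat.exists_eq_add_of_le' h0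
  rw [Pool.Agent.H3.SZ.bb_succ, Pool.Agent.H3.SZ.bl_eq]
  have h1 : ((0 : ℂ) ^ 2 + α j) / (1 + (starRingEnd ℂ) (α j) * 0 ^ 2) = α j := by
    rw [zero_pow two_ne_zero, zero_add, mul_zero, add_zero, div_one]
  rw [h1]
  exact hT.cv j hm

theorem bc_zero (v : ℂ) (j : ℕ) : Bc α 0 j v = BB b1 α j v := by
  have h1 := bb_bc (α := α) (u := 0) j v
  rw [zero_add] at h1
  exact h1

/-- an orbit in `P` stays in `P` -/
theorem it_P (h : PS f U J P Cr δ η ρ) {w : ℂ} (hw : w ∈ P) : ∀ n : ℕ, f^[n] w ∈ P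
  | 0 => hw
  | n + 1 => by
    rw [Function.iterate_succ_apply']
    exact h.Pf _ (it_P h hw n)

theorem tq_of (h : PS f U J P Cr δ η ρ) (_hM : Mn f P M) (hT : Tg f U M P Cr z θ r s k t cc α x χ γ) {l m : ℕ} (hl0 : 0 < l) (hl : l < m)
    (hm : m ≤ s) (hb : cc l = cc m) : ∃ w : ℂ, Tq f U P θ r (Nn t m l) (t l - t m) α (χ 0)
      (ϑ f t γ (t m + (t 0 - t l)) (Nn t m l)) (x (Nn t m l)) w (BB b1 α l 0) ∧ BB b1 α (Nn t m l) w = BB b1 α m 0 := by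
  obtain ⟨hu, h1, h2⟩ := nn_spec hT hl0 hl hm
  obtain ⟨u, hudef⟩ : ∃ u, u = Nn t m l := ⟨_, rfl⟩
  obtain ⟨τ, hτ⟩ : ∃ τ, τ = t m + (t 0 - t l) := ⟨_, rfl⟩
  rw [← hudef] at hu h1 h2 ⊢
  rw [← hτ] at h1 h2 ⊢
  have hus : u < s := by omega
  have htl : t m < t l := tg_t hT hl hm
  have htl0 : t l < t 0 := tg_t hT hl0 (by omega)
  have htu : t u ≤ t 0 := by
    rcases Nat.eq_zero_or_pos u with h5 | h5
    · rw [h5]
    · exact (tg_t hT h5 hus.le).le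
  have h0 : (0 : ℂ) ∈ ball (0 : ℂ) 1 := mem_ball_self one_pos
  have hbm : BB b1 α u (Bc α u (m - u) 0) = BB b1 α m 0 := by
    rw [bb_bc]
    congr 1
    omega
  refine ⟨Bc α u (m - u) 0, ⟨th_diff h hT hus h1 h2, th_inj hT hus h1 h2, by omega, fun v hv => ?_, fun i hi => hT.al i (by omega),
    fun i hi => hT.cv i (by omega), fun v hv hvθ hvP => ?_, ⟨(hT.tm u hus.le).1, (hT.tm u hus.le).2.1, ?_⟩, ?_, ?_, ?_, ?_⟩, hbm⟩
  · have h3 := th_up hT hus h1 h2 hv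
    have h4 := tg_up hT (u := 0) (j := u) (by omega) v hv
    rw [zero_add, bc_zero] at h4
    have h5 : t l - t m = (t 0 - t u) + (t u - τ) := by omega
    rw [h5]
    constructor
    · intro j hj
      rcases Nat.lt_or_ge j (t u - τ) with h6 | h6
      · exact h3.1 j h6
      · obtain ⟨j', rfl⟩ := Nat.exists_eq_add_of_le' h6
        rw [Function.iterate_add_apply, h3.2]
        exact h4.1 j' (by omega)
    · rw [Function.iterate_add_apply, h3.2]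
      exact h4.2
  · refine hT.of u hus.le v hv hvθ ?_
    rw [← (th_up hT hus h1 h2 hv).2]
    exact it_P h hvP _
  · have h3 : ϑ f t γ τ u (x u) = f^[τ] z := by
      unfold ϑ
      rw [hT.tg u hus, ← Function.iterate_add_apply]
      congr 1
      have : τ - t (u + 1) - 1 + (t (u + 1) + 1) = τ := by omega
      rw [this]
    rw [h3]
    exact hT.fe τ (by omega)
  · exact bc_lt (fun i hi => hT.al i (by omega)) 0 h0
  · rw [hbm]
    exact bb_zero hT (by omega) hm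
  · exact bb_zero hT hl0 (by omega)
  · rw [← th_of hT hu hm h1 h0]
    have h3 := (tg_up hT (u := 0) (j := l) (by omega) 0 h0).2
    rw [zero_add, bc_zero] at h3
    rw [← h3, (hT.c0 m hm).1, (hT.c0 l (by omega)).1, hb]
    congr 1
    have : τ - t m = t 0 - t l := by omega
    rw [this]

theorem tt_tq {u kk : ℕ} {χ0 Θ : ℂ → ℂ} {x w w0 : ℂ} (h : Tq f U P θ r u kk α χ0 Θ x w w0) :
    Pool.Agent.H3.SZ2.TT f U P θ r χ0 α u kk Θ :=
  ⟨h.d, h.i, h.al, h.cv, h.kp, fun v hv => (h.st v hv).1, fun v hv => (h.st v hv).2, h.of,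
    ⟨w0, w, h.w1.2.2.1, mem_ball_zero_iff.1 h.w1.1, h.w1.2.1, h.w1.2.2.2⟩, ⟨x, mem_ball_zero_iff.1 h.x1.1, h.x1.2.1, h.x1.2.2⟩⟩

/-- sizes -/
theorem tq_sz (h : PS f U J P Cr δ η ρ) (hM : 1 ≤ Mc) (hθ0 : 0 < θ) (hθr : θ < r) (hr1 : r < 1) (u : ℕ) :
    ∃ κ C ε0 : ℝ, 0 < κ ∧ 0 < ε0 ∧ ∀ {c : ℂ} {ε : ℝ} {kk : ℕ} {α : ℕ → ℂ} {χ0 Θ : ℂ → ℂ} {x w w0 : ℂ},
      Tq f U P θ r u kk α χ0 Θ x w w0 → c ∈ J → Wt f U J P δ c θ Mc ε χ0 → ε ≤ ε0 →
      κ * ‖deriv χ0 0‖ ≤ ‖deriv Θ 0‖ ∧ ‖deriv Θ 0‖ ≤ C * ‖deriv χ0 0‖ ∧ ‖Θ 0 - c‖ ≤ C * ‖deriv χ0 0‖ := by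
  obtain ⟨κ, hκ, h1⟩ := Pool.Agent.H3.SZ2.tt_lo hθ0.le hθr hr1 u
  obtain ⟨C, ε0, hC, hε0, h2⟩ := Pool.Agent.H3.SZ2.tt_up h hM (hθr.trans hr1) u
  obtain ⟨C', ε0', hC', hε0', h3⟩ := Pool.Agent.H3.SZ2.tt_zb h hM hθ0.le hθr hr1 u
  refine ⟨κ, max C C', min ε0 ε0', hκ, lt_min hε0 hε0', fun {c ε kk α χ0 Θ x w w0} hq hc hW hε => ?_⟩
  have hTT := tt_tq hq
  refine ⟨h1 hTT hW.d hW.i, (h2 hTT hc hW (hε.trans (min_le_left _ _))).trans ?_,
    ((h3 hTT hc hW (hε.trans (min_le_right _ _))).1).trans ?_⟩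
  · exact mul_le_mul_of_nonneg_right (le_max_left _ _) (norm_nonneg _)
  · exact mul_le_mul_of_nonneg_right (le_max_right _ _) (norm_nonneg _)

/-- crossing -/
theorem tq_cr (h : PS f U J P Cr δ η ρ) (hM : 1 ≤ Mc) (hθ0 : 0 < θ) (hθr : θ < r) (hr1 : r < 1) (u : ℕ) :
    ∃ ε0 : ℝ, 0 < ε0 ∧ ∀ {c : ℂ} {ε : ℝ} {kk : ℕ} {α : ℕ → ℂ} {χ0 Θ : ℂ → ℂ} {x w w0 : ℂ},
      Tq f U P θ r u kk α χ0 Θ x w w0 → c ∈ J → Wt f U J P δ c θ Mc ε χ0 → ε ≤ ε0 →
      ∃ x' y' : ℂ, ‖x'‖ = r ∧ ‖y'‖ < 1 ∧ ‖BB b1 α u y'‖ = r ∧ Θ y' = χ0 x' := by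
  obtain ⟨ε0, hε0, h1⟩ := Pool.Agent.H3.SZ2.tt_cr h hM hθ0.le hθr hr1 u
  exact ⟨ε0, hε0, fun {c ε kk α χ0 Θ x w w0} hq hc hW hε => h1 (tt_tq hq) hc hW hε⟩

end Pool.Agent.H64.XG
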