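import Pool.Agent.H66.DIM.If
import Pool.Agent.H44.LA.Defs

/-!
# Chapter X*: typical orbits accumulate at every point of the minimal piece

`tz_rc`: `Rc f b z` for `b ∈ M`. `tz_av`: the orbit stays away from the critical points outside `M`. `rec_cp`, `rec_in`: recurrence of
the critical points gives `Cr ⊆ P` and: a critical point with an iterate in `M` is in `M`.
-/

set_option autoImplicit false

open Filter Topology Metric Set MeasureTheory

namespace Pool.Agent.H64.XG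

open Pool.Agent.H56.UD
open Pool.Agent.H66.DIM (Mn Tz)
open Pool.Agent.H44.LA (Rc)

variable {f : ℂ → ℂ} {U J P M Cr : Set ℂ} {δ : ℝ} {η : ℂ → ℂ → ℂ} {ρ : ℝ} {c z : ℂ}

theorem J_it (h : PS f U J P Cr δ η ρ) {y : ℂ} (hy : y ∈ J) : ∀ j : ℕ, f^[j] y ∈ J
  | 0 => hy
  | j + 1 => by
    rw [Function.iterate_succ_apply']
    exact h.Jf _ (J_it h hy j)

theorem it_cont (h : PS f U J P Cr δ η ρ) {y : ℂ} (hy : y ∈ J) : ∀ j : ℕ, ContinuousAt f^[j] y
  | 0 => by
    rw [Function.iterate_zero]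
    exact continuousAt_id
  | j + 1 => by
    rw [Function.iterate_succ']
    have h1 := J_it h hy j
    have h2 : ContinuousAt f (f^[j] y) := (h.fd.differentiableAt (h.Uo.mem_nhds (h.JU h1))).continuousAt
    exact h2.comp (it_cont h hy j)

theorem tz_rc (h : PS f U J P Cr δ η ρ) (hM : Mn f P M) (hz : z ∈ J) (hT : Tz f Cr M z) {b : ℂ} (hb : b ∈ M) : Rc f b z := by
  intro ε hε N
  by_contra hcon
  push Not at hcon
  -- an accumulation point
  obtain ⟨y, hyJ, φ, hφ, hy⟩ := h.Jc.tendsto_subseq (x := fun n => f^[n] z) (fun n => J_it h hz n)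
  have hyM : y ∈ M := by
    rw [← hM.cl.closure_eq, Metric.mem_closure_iff]
    intro e he
    obtain ⟨N1, hN1⟩ := hT.lim (e / 2) (half_pos he)
    obtain ⟨n, hn1, hn2⟩ := ((hφ.tendsto_atTop.eventually_ge_atTop N1).and
      (hy.eventually (ball_mem_nhds y (half_pos he)))).exists
    obtain ⟨q, hq, hq2⟩ := hN1 (φ n) hn1
    refine ⟨q, hq, ?_⟩
    have h3 : dist (f^[φ n] z) y < e / 2 := hn2
    rw [← dist_eq_norm] at hq2
    calc dist y q ≤ dist y (f^[φ n] z) + dist (f^[φ n] z) q := dist_triangle _ _ _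
      _ < e := by
        rw [dist_comm y]
        linarith
  obtain ⟨w, ⟨j, rfl⟩, hw⟩ := Metric.mem_closure_iff.1 (hM.min y hyM hb) ε hε
  have h1 : ∀ᶠ v in 𝓝 y, f^[j] v ∈ ball b ε := by
    refine (it_cont h hyJ j).eventually (isOpen_ball.mem_nhds ?_)
    rw [mem_ball, dist_comm]
    exact hw
  obtain ⟨n, hn1, hn2⟩ := ((hy.eventually h1).and (hφ.tendsto_atTop.eventually_ge_atTop N)).exists
  refine hcon (j + φ n) (by omega) ?_
  rw [Function.iterate_add_apply]
  exact hn1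

theorem tz_av (hM : Mn f P M) (hT : Tz f Cr M z) : ∀ c' ∈ Cr, c' ∉ M → ∃ ε : ℝ, 0 < ε ∧ ∀ n, f^[n] z ∉ ball c' ε := by
  intro c' hc' hcM
  obtain ⟨e1, he1, h1⟩ := Metric.isOpen_iff.1 hM.cl.isOpen_compl c' hcM
  obtain ⟨N, hN⟩ := hT.lim (e1 / 2) (half_pos he1)
  have h2 : ∀ n : ℕ, 0 < dist (f^[n] z) c' := fun n => dist_pos.2 fun h3 => hT.npc n (h3 ▸ hc')
  have h3 : ∀ N : ℕ, ∃ e : ℝ, 0 < e ∧ ∀ n < N, e ≤ dist (f^[n] z) c' := by
    intro N
    induction N with
    | zero => exact ⟨1, one_pos, fun n hn => absurd hn (Nat.not_lt_zero n)⟩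
    | succ N ih =>
      obtain ⟨e, he, h4⟩ := ih
      refine ⟨min e (dist (f^[N] z) c'), lt_min he (h2 N), fun n hn => ?_⟩
      rcases Nat.lt_or_ge n N with h5 | h5
      · exact (min_le_left _ _).trans (h4 n h5)
      · obtain rfl : n = N := by omega
        exact min_le_right _ _
  obtain ⟨e, he, h4⟩ := h3 N
  refine ⟨min e (e1 / 2), lt_min he (half_pos he1), fun n hn => ?_⟩
  rw [mem_ball] at hn
  rcases Nat.lt_or_ge n N with h5 | h5
  · have := h4 n h5
    have := min_le_left e (e1 / 2)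
    linarith
  · obtain ⟨q, hq, hq2⟩ := hN n h5
    refine h1 (a := q) ?_ hq
    rw [mem_ball]
    rw [← dist_eq_norm, dist_comm] at hq2
    have h6 := min_le_right e (e1 / 2)
    linarith [dist_triangle q (f^[n] z) c']

theorem rec_cp (h : PS f U J P Cr δ η ρ) (hrec : ∀ c ∈ Cr, ∀ ε : ℝ, 0 < ε → ∃ n ≥ 1, ‖f^[n] c - c‖ < ε) : Cr ⊆ P := by
  intro c hc
  rw [← h.Pc.closure_eq, Metric.mem_closure_iff]
  intro e he
  obtain ⟨n, hn, hn2⟩ := hrec c hc e he
  refine ⟨f^[n] c, ?_, by rw [dist_comm, dist_eq_norm]; exact hn2⟩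
  have h1 : ∀ k : ℕ, f^[k + 1] c ∈ P := by
    intro k
    induction k with
    | zero => exact h.CP c hc
    | succ k ih =>
      rw [Function.iterate_succ_apply']
      exact h.Pf _ ih
  obtain ⟨k, rfl⟩ : ∃ k, n = k + 1 := ⟨n - 1, by omega⟩
  exact h1 k

theorem rec_in (hM : Mn f P M) (hrec : ∀ c ∈ Cr, ∀ ε : ℝ, 0 < ε → ∃ n ≥ 1, ‖f^[n] c - c‖ < ε) :
    ∀ c' ∈ Cr, ∀ j : ℕ, f^[j] c' ∈ M → c' ∈ M := by
  intro c' hc' j hj
  by_contra hcM
  obtain ⟨e1, he1, h1⟩ := Metric.isOpen_iff.1 hM.cl.isOpen_compl c' hcM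
  have h2 : ∀ n ≥ j, f^[n] c' ∈ M := by
    intro n hn
    induction n, hn using Nat.le_induction with
    | base => exact hj
    | succ n _ ih =>
      rw [Function.iterate_succ_apply']
      exact hM.inv _ ih
  have h3 : ∀ n ≥ 1, f^[n] c' ≠ c' := by
    intro n hn h4
    have h5 : ∀ k : ℕ, f^[n * k] c' = c' := by
      intro k
      induction k with
      | zero => rfl
      | succ k ih =>
        rw [Nat.mul_succ, Function.iterate_add_apply, h4, ih]
    have h6 := h2 (n * j) (by nlinarith)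
    rw [h5 j] at h6
    exact hcM h6
  have h4 : ∀ N : ℕ, ∃ e : ℝ, 0 < e ∧ ∀ n < N, 1 ≤ n → e ≤ ‖f^[n] c' - c'‖ := by
    intro N
    induction N with
    | zero => exact ⟨1, one_pos, fun n hn => absurd hn (Nat.not_lt_zero n)⟩
    | succ N ih =>
      obtain ⟨e, he, h4⟩ := ih
      rcases Nat.eq_zero_or_pos N with h0 | h0
      · exact ⟨1, one_pos, fun n hn h1 => by omega⟩
      refine ⟨min e ‖f^[N] c' - c'‖, lt_min he (norm_pos_iff.2 (sub_ne_zero.2 (h3 N h0))), fun n hn hn1 => ?_⟩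
      rcases Nat.lt_or_ge n N with h5 | h5
      · exact (min_le_left _ _).trans (h4 n h5 hn1)
      · obtain rfl : n = N := by omega
        exact min_le_right _ _
  obtain ⟨e, he, h5⟩ := h4 j
  obtain ⟨n, hn, hn2⟩ := hrec c' hc' (min e e1) (lt_min he he1)
  rcases Nat.lt_or_ge n j with h6 | h6
  · have := h5 n h6 hn
    have := min_le_left e e1
    linarith
  · refine h1 (a := f^[n] c') ?_ (h2 n h6)
    rw [mem_ball, dist_eq_norm]
    exact hn2.trans_le (min_le_right _ _)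

end Pool.Agent.H64.XG
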