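import Pool.Agent.H64.XG.Tqx
import Pool.Agent.H23.XW.Main
import Pool.Agent.H23.XW2.F0

/-!
# Chapter X*: the limits of the windows `T_(m,l)` exist (G3), and `α' = 0` is impossible (G7)

G3: as H23/XW (`ws_lim`, `ts_ws`), with `tq_sz`, `tq_cr`, `tq_of`; the constants `κc`, `Cc` depend on the level only.
The pairs `(m, l)` with `l < m`, `bb l = bb m` are encoded by `k = Nat.pair m l + 1` (`k = 0` and the other numbers: the base window), then `ws2_lim` (H23/XW2).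
G7: `α' s = 0` for all `s`: `BB m 0 = BB l 0 = 0`, so `0 ∈ Θ m l '' ball 0 1` (`cm`), `F m l 0 = 0`; `deriv (Ft .. n) 0 = 0` (`c` is critical), so `deriv (F m l) 0 = 0`: for a small `e` the
maps `Ft .. n` map `ball 0 e` into itself for almost all `n`: contradiction with `noattr` (H3/SZ).
-/

set_option autoImplicit false

open Filter Topology Metric Set MeasureTheory

namespace Pool.Agent.H64.XG

open Pool.Agent.H56.UD
open Pool.Agent.H66.GEO (Bl BB)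
open Pool.Agent.H64.XL (b1 Wt)
open Pool.Agent.H66.DIM (Mn)

variable {𝒰 : Ultrafilter ℕ} {f : ℂ → ℂ} {U J M P Cr : Set ℂ} {δ : ℝ} {η : ℂ → ℂ → ℂ} {ρ : ℝ} {c z : ℂ} {θ r Mc : ℝ}
  {ε : ℕ → ℝ} {S : ℕ → ℕ} {k t : ℕ → ℕ → ℕ} {cc α x : ℕ → ℕ → ℂ} {χ γ : ℕ → ℕ → ℂ → ℂ} {bb : ℕ → ℂ} {uu : ℕ → ℕ → ℕ}

/-- the scales tend to `0` -/
theorem tg_R (hT : TGs 𝒰 f U J M P Cr δ c z θ r Mc ε S k t cc α x χ γ bb uu) :
    Tendsto (Rn χ) (𝒰 : Filter ℕ) (𝓝 0) := by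
  rw [tendsto_zero_iff_norm_tendsto_zero]
  have h1 : Tendsto (fun n => 16 * ε n) (𝒰 : Filter ℕ) (𝓝 0) := by
    simpa using hT.εt.const_mul 16
  refine tendsto_of_tendsto_of_tendsto_of_le_of_le' tendsto_const_nhds h1 (Eventually.of_forall fun n => norm_nonneg _) ?_
  filter_upwards [hT.w] with n hn
  exact Pool.Agent.H3.SZ.wt_sz hn

theorem tg_R0 (hT : TGs 𝒰 f U J M P Cr δ c z θ r Mc ε S k t cc α x χ γ bb uu) : ∀ᶠ n in (𝒰 : Filter ℕ), Rn χ n ≠ 0 := by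
  filter_upwards [hT.w] with n hn
  exact Pool.Agent.H23.XW.ih_der isOpen_ball hn.d hn.i (mem_ball_self one_pos)

/-- the windows `T_(m,l)` at almost all stages -/
theorem tg_q (h : PS f U J P Cr δ η ρ) (hM : Mn f P M)
    (hT : TGs 𝒰 f U J M P Cr δ c z θ r Mc ε S k t cc α x χ γ bb uu) {m l : ℕ} (hl0 : 0 < l) (hl : l < m) (hb : bb l = bb m) :
    ∀ᶠ n in (𝒰 : Filter ℕ), ∃ w : ℂ, Tq f U P θ r (uu m l) (t n l - t n m) (α n) (χ n 0)
      (ϑ f (t n) (γ n) (t n m + (t n 0 - t n l)) (uu m l)) (x n (uu m l)) w (BB b1 (α n) l 0) ∧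
      BB b1 (α n) (uu m l) w = BB b1 (α n) m 0 := by
  filter_upwards [hT.tw, hT.St m, hT.bc m, hT.bc l, hT.uc m l] with n h1 h2 h3 h4 h5
  have h6 := tq_of h hM h1 hl0 hl h2 (by rw [h3, h4, hb])
  rwa [h5] at h6

/-- the windows of the encoded pairs -/
private noncomputable def VV (bb : ℕ → ℂ) (k : ℕ) : Prop :=
  k ≠ 0 ∧ 0 < (Nat.unpair (k - 1)).2 ∧ (Nat.unpair (k - 1)).2 < (Nat.unpair (k - 1)).1 ∧ bb (Nat.unpair (k - 1)).2 = bb (Nat.unpair (k - 1)).1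

open Classical in
private noncomputable def Wk (f : ℂ → ℂ) (c : ℂ) (t : ℕ → ℕ → ℕ) (χ γ : ℕ → ℕ → ℂ → ℂ) (bb : ℕ → ℂ) (uu : ℕ → ℕ → ℕ) (n k : ℕ) : ℂ → ℂ :=
  if VV bb k then Θn f c t χ γ uu (Nat.unpair (k - 1)).1 (Nat.unpair (k - 1)).2 n else fun v => (χ n 0 v - c) / Rn χ n

open Classical in
private noncomputable def Fk (f : ℂ → ℂ) (c : ℂ) (t : ℕ → ℕ → ℕ) (χ : ℕ → ℕ → ℂ → ℂ) (bb : ℕ → ℂ) (n k : ℕ) : ℂ → ℂ :=
  if VV bb k then Ft f c t χ (Nat.unpair (k - 1)).1 (Nat.unpair (k - 1)).2 n else fun w => w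

open Classical in
private noncomputable def uk (bb : ℕ → ℂ) (uu : ℕ → ℕ → ℕ) (k : ℕ) : ℕ :=
  if VV bb k then uu (Nat.unpair (k - 1)).1 (Nat.unpair (k - 1)).2 else 0

private theorem vv_pair {m l : ℕ} (hl0 : 0 < l) (hl : l < m) (hb : bb l = bb m) : VV bb (Nat.pair m l + 1) := by
  refine ⟨by omega, ?_, ?_, ?_⟩ <;> simp only [Nat.add_sub_cancel, Nat.unpair_pair] <;> assumption

private theorem vv_zero : ¬ VV bb 0 := fun h => h.1 rfl

private theorem th_eq {m l n : ℕ} (hR : Rn χ n ≠ 0) (v : ℂ) :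
    c + Rn χ n * Θn f c t χ γ uu m l n v = ϑ f (t n) (γ n) (t n m + (t n 0 - t n l)) (uu m l) v := by
  unfold Θn
  field_simp
  ring

/-- the hypotheses of `ws2_lim` -/
private theorem ws2 (h : PS f U J P Cr δ η ρ) (hM : Mn f P M)
    (hT : TGs 𝒰 f U J M P Cr δ c z θ r Mc ε S k t cc α x χ γ bb uu) :
    Pool.Agent.H23.XW2.WS2 𝒰 θ r (Pn P (fun _ => c) (Rn χ)) (Wk f c t χ γ bb uu) (Fk f c t χ bb) α (uk bb uu) := by
  have hR := tg_R hT
  have hR0 := tg_R0 hT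
  have hR0' : ∀ᶠ n in (𝒰 : Filter ℕ), 0 < ‖Rn χ n‖ := hR0.mono fun n hn => norm_pos_iff.2 hn
  have hcJ : c ∈ J := h.CJ hT.cC
  have hW0 : ∀ n, Wk f c t χ γ bb uu n 0 = fun v => (χ n 0 v - c) / Rn χ n := fun n => if_neg vv_zero
  have hbase : ∀ n k, ¬ VV bb k → Wk f c t χ γ bb uu n k = fun v => (χ n 0 v - c) / Rn χ n := fun n k hk => if_neg hk
  have hwin : ∀ n k, VV bb k → Wk f c t χ γ bb uu n k = Θn f c t χ γ uu (Nat.unpair (k - 1)).1 (Nat.unpair (k - 1)).2 n :=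
    fun n k hk => if_pos hk
  -- the base window
  have b_d : ∀ᶠ n in (𝒰 : Filter ℕ), DifferentiableOn ℂ (fun v => (χ n 0 v - c) / Rn χ n) (ball 0 1) := by
    filter_upwards [hT.w] with n hn
    exact (hn.d.sub_const c).div_const _
  have b_i : ∀ᶠ n in (𝒰 : Filter ℕ), InjOn (fun v => (χ n 0 v - c) / Rn χ n) (ball 0 1) := by
    filter_upwards [hT.w, hR0] with n hn hn2 v hv v' hv' hvv
    refine hn.i hv hv' ?_
    have h1 : (χ n 0 v - c) / Rn χ n = (χ n 0 v' - c) / Rn χ n := hvv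
    have h2 : χ n 0 v - c = χ n 0 v' - c := by
      field_simp at h1
      exact h1
    linear_combination h2
  have b_z : ∀ᶠ n in (𝒰 : Filter ℕ), (χ n 0 0 - c) / Rn χ n = 0 := by
    filter_upwards [hT.w] with n hn
    rw [hn.c0, sub_self, zero_div]
  have b_der : ∀ᶠ n in (𝒰 : Filter ℕ), ‖deriv (fun v => (χ n 0 v - c) / Rn χ n) 0‖ = 1 := by
    filter_upwards [hR0'] with n hn
    rw [deriv_div_const, deriv_sub_const, norm_div]
    exact div_self hn.ne'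
  have b_b : ∀ᶠ n in (𝒰 : Filter ℕ), ∀ v ∈ ball (0 : ℂ) 1, ‖(χ n 0 v - c) / Rn χ n‖ ≤ Mc := by
    filter_upwards [hT.w, hR0'] with n hn1 hn2 v hv
    rw [norm_div, div_le_iff₀ hn2]
    exact hn1.bd v hv
  -- the windows
  have w_q : ∀ k, VV bb k → ∀ᶠ n in (𝒰 : Filter ℕ), ∃ w : ℂ, Tq f U P θ r (uu (Nat.unpair (k - 1)).1 (Nat.unpair (k - 1)).2)
      (t n (Nat.unpair (k - 1)).2 - t n (Nat.unpair (k - 1)).1) (α n) (χ n 0)
      (ϑ f (t n) (γ n) (t n (Nat.unpair (k - 1)).1 + (t n 0 - t n (Nat.unpair (k - 1)).2)) (uu (Nat.unpair (k - 1)).1 (Nat.unpair (k - 1)).2))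
      (x n (uu (Nat.unpair (k - 1)).1 (Nat.unpair (k - 1)).2)) w (BB b1 (α n) (Nat.unpair (k - 1)).2 0) ∧
      BB b1 (α n) (uu (Nat.unpair (k - 1)).1 (Nat.unpair (k - 1)).2) w = BB b1 (α n) (Nat.unpair (k - 1)).1 0 :=
    fun k hk => tg_q h hM hT hk.2.1 hk.2.2.1 hk.2.2.2
  have w_sz : ∀ k, VV bb k → ∃ κ C : ℝ, 0 < κ ∧ ∀ᶠ n in (𝒰 : Filter ℕ), κ ≤ ‖deriv (Wk f c t χ γ bb uu n k) 0‖ ∧
      ‖deriv (Wk f c t χ γ bb uu n k) 0‖ ≤ C ∧ ‖Wk f c t χ γ bb uu n k 0‖ ≤ C := by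
    intro k hk
    obtain ⟨κ, C, ε0, hκ, hε0, hsz⟩ := tq_sz h hT.M1 hT.θ0 hT.θr hT.r1 (uu (Nat.unpair (k - 1)).1 (Nat.unpair (k - 1)).2)
    refine ⟨κ, C, hκ, ?_⟩
    filter_upwards [w_q k hk, hT.w, hT.εt.eventually_le_const hε0, hR0'] with n hn1 hn2 hn3 hn4
    obtain ⟨w, hq, -⟩ := hn1
    obtain ⟨h1, h2, h3⟩ := hsz hq hcJ hn2 hn3
    have h4 : deriv (Wk f c t χ γ bb uu n k) 0 = deriv (ϑ f (t n) (γ n) (t n (Nat.unpair (k - 1)).1 +
        (t n 0 - t n (Nat.unpair (k - 1)).2)) (uu (Nat.unpair (k - 1)).1 (Nat.unpair (k - 1)).2)) 0 / Rn χ n := by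
      have h5 : Wk f c t χ γ bb uu n k = fun v => (ϑ f (t n) (γ n) (t n (Nat.unpair (k - 1)).1 +
        (t n 0 - t n (Nat.unpair (k - 1)).2)) (uu (Nat.unpair (k - 1)).1 (Nat.unpair (k - 1)).2) v - c) / Rn χ n := hwin n k hk
      rw [h5, deriv_div_const, deriv_sub_const]
    have h5 : Wk f c t χ γ bb uu n k 0 = (ϑ f (t n) (γ n) (t n (Nat.unpair (k - 1)).1 +
        (t n 0 - t n (Nat.unpair (k - 1)).2)) (uu (Nat.unpair (k - 1)).1 (Nat.unpair (k - 1)).2) 0 - c) / Rn χ n := by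
      rw [hwin n k hk]
      rfl
    rw [h4, h5, norm_div, norm_div, le_div_iff₀ hn4, div_le_iff₀ hn4, div_le_iff₀ hn4]
    exact ⟨h1, h2, h3⟩
  refine ⟨hT.θ0, hT.θr, hT.r1, if_neg vv_zero, ?_, ?_, ⟨Mc, ?_⟩, ?_, ?_, ?_, ?_, ?_, ?_, ?_, ?_, ?_, ?_, ?_⟩
  · -- Pc
    filter_upwards with n
    exact h.Pc.preimage (by fun_prop : Continuous fun w : ℂ => c + Rn χ n * w)
  · -- z0
    simp only [hW0]
    exact b_z
  · -- bd
    simp only [hW0]
    exact b_b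
  · -- sy
    intro v hv
    simp only [hW0]
    have hv' : -v ∈ ball (0 : ℂ) 1 := by simpa using hv
    obtain ⟨A, -, hA⟩ := Pool.Agent.H23.XW.lim_bd 𝒰 (b_b.mono fun n hn => hn v hv)
    obtain ⟨B, -, hB⟩ := Pool.Agent.H23.XW.lim_bd 𝒰 (b_b.mono fun n hn => hn (-v) hv')
    obtain ⟨g, hg, hg0, hgf⟩ := Pool.Agent.H23.XW.tay h hT.cC
    have hsc : ∀ (w : ℂ) (a : ℕ → ℂ), Tendsto a (𝒰 : Filter ℕ) (𝓝 w) →
        Tendsto (fun n => c + Rn χ n * a n) (𝒰 : Filter ℕ) (𝓝 c) := by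
      intro w a ha
      have h1 := (hR.mul ha).const_add c
      rwa [zero_mul, add_zero] at h1
    have h1 := (hA.pow 2).mul (hg.tendsto.comp (hsc _ _ hA))
    have h2 := (hB.pow 2).mul (hg.tendsto.comp (hsc _ _ hB))
    have h3 : A ^ 2 * g c = B ^ 2 * g c := by
      refine tendsto_nhds_unique (h1.congr' ?_) h2
      filter_upwards [hT.w, hR0] with n hn1 hn3
      have h4 := hn1.sy v hv
      rw [hgf (χ n 0 (-v)), hgf (χ n 0 v)] at h4
      have h5 : c + Rn χ n * ((χ n 0 v - c) / Rn χ n) = χ n 0 v := by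
        field_simp
        ring
      have h6 : c + Rn χ n * ((χ n 0 (-v) - c) / Rn χ n) = χ n 0 (-v) := by
        field_simp
        ring
      have h7 : (χ n 0 (-v) - c) ^ 2 * g (χ n 0 (-v)) = (χ n 0 v - c) ^ 2 * g (χ n 0 v) := by linear_combination h4
      simp only [Function.comp_apply]
      rw [h5, h6, div_pow, div_pow]
      have h8 : Rn χ n ^ 2 ≠ 0 := pow_ne_zero 2 hn3
      field_simp
      linear_combination (-1 : ℂ) * h7
    have h4 : B ^ 2 - A ^ 2 = 0 := by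
      have := mul_right_cancel₀ hg0 h3
      rw [this, sub_self]
    rw [← h4]
    exact (hB.pow 2).sub (hA.pow 2)
  · -- al
    intro s
    filter_upwards [hT.tw, hT.St (s + 1)] with n hn1 hn2
    exact hn1.al s (by omega)
  · -- cv
    intro s
    filter_upwards [hT.tw, hT.St (s + 1)] with n hn1 hn2
    exact hn1.cv s (by omega)
  · -- dΦ
    intro k
    by_cases hk : VV bb k
    · filter_upwards [w_q k hk] with n hn
      obtain ⟨w, hq, -⟩ := hn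
      rw [hwin n k hk]
      exact (hq.d.sub_const c).div_const _
    · simp only [hbase _ k hk]
      exact b_d
  · -- iΦ
    intro k
    by_cases hk : VV bb k
    · filter_upwards [w_q k hk, hR0] with n hn hn2 v hv v' hv' hvv
      obtain ⟨w, hq, -⟩ := hn
      rw [hwin n k hk] at hvv
      refine hq.i hv hv' ?_
      rw [← th_eq hn2, ← th_eq hn2, hvv]
    · simp only [hbase _ k hk]
      exact b_i
  · -- zb
    intro k
    by_cases hk : VV bb k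
    · obtain ⟨κ, C, -, hC⟩ := w_sz k hk
      exact ⟨C, hC.mono fun n hn => hn.2.2⟩
    · refine ⟨0, ?_⟩
      simp only [hbase _ k hk]
      filter_upwards [b_z] with n hn
      rw [hn, norm_zero]
  · -- lo
    intro k
    by_cases hk : VV bb k
    · obtain ⟨κ, C, hκ, hC⟩ := w_sz k hk
      exact ⟨κ, hκ, hC.mono fun n hn => hn.1⟩
    · refine ⟨1, one_pos, ?_⟩
      simp only [hbase _ k hk]
      exact b_der.mono fun n hn => hn.ge
  · -- up
    intro k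
    by_cases hk : VV bb k
    · obtain ⟨κ, C, hκ, hC⟩ := w_sz k hk
      exact ⟨C, hC.mono fun n hn => hn.2.1⟩
    · refine ⟨1, ?_⟩
      simp only [hbase _ k hk]
      exact b_der.mono fun n hn => hn.le
  · -- rel
    intro k
    by_cases hk : VV bb k
    · filter_upwards [w_q k hk, hR0] with n hn hn2 v hv
      obtain ⟨w, hq, -⟩ := hn
      have h1 : Fk f c t χ bb n k = Ft f c t χ (Nat.unpair (k - 1)).1 (Nat.unpair (k - 1)).2 n := if_pos hk
      have h2 : uk bb uu k = uu (Nat.unpair (k - 1)).1 (Nat.unpair (k - 1)).2 := if_pos hk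
      rw [h1, h2, hwin n k hk, hW0 n]
      unfold Ft
      rw [th_eq hn2, (hq.st v hv).2]
    · filter_upwards with n v hv
      have h1 : Fk f c t χ bb n k = fun w => w := if_neg hk
      have h2 : uk bb uu k = 0 := if_neg hk
      rw [h1, h2, hbase n k hk, hW0 n]
      rfl
  · -- off
    intro k
    by_cases hk : VV bb k
    · filter_upwards [w_q k hk, hR0] with n hn hn2 v hv hth hP
      obtain ⟨w, hq, -⟩ := hn
      have h2 : uk bb uu k = uu (Nat.unpair (k - 1)).1 (Nat.unpair (k - 1)).2 := if_pos hk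
      rw [h2] at hth
      refine hq.of v hv hth ?_
      have h3 : c + Rn χ n * Wk f c t χ γ bb uu n k v ∈ P := hP
      rwa [hwin n k hk, th_eq hn2] at h3
    · filter_upwards [hT.w, hR0] with n hn hn2 v hv hth hP
      have h2 : uk bb uu k = 0 := if_neg hk
      rw [h2] at hth
      have hv1 : ‖v‖ < 1 := by simpa using hv
      refine hn.of v hth hv1 ?_
      have h3 : c + Rn χ n * Wk f c t χ γ bb uu n k v ∈ P := hP
      rw [hbase n k hk] at h3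
      have h5 : c + Rn χ n * ((χ n 0 v - c) / Rn χ n) = χ n 0 v := by
        field_simp
        ring
      rwa [h5] at h3
  · -- cr
    intro k
    by_cases hk : VV bb k
    · obtain ⟨ε0, hε0, hcr⟩ := tq_cr h hT.M1 hT.θ0 hT.θr hT.r1 (uu (Nat.unpair (k - 1)).1 (Nat.unpair (k - 1)).2)
      filter_upwards [w_q k hk, hT.w, hT.εt.eventually_le_const hε0, hR0] with n hn1 hn2 hn3 hn4
      obtain ⟨w, hq, -⟩ := hn1
      obtain ⟨a, b, h1, h2, h3, h4⟩ := hcr hq hcJ hn2 hn3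
      have h5 : uk bb uu k = uu (Nat.unpair (k - 1)).1 (Nat.unpair (k - 1)).2 := if_pos hk
      refine ⟨a, b, h1, h2, by rw [h5]; exact h3, ?_⟩
      rw [hwin n k hk, hW0 n]
      show (ϑ f (t n) (γ n) (t n (Nat.unpair (k - 1)).1 + (t n 0 - t n (Nat.unpair (k - 1)).2))
        (uu (Nat.unpair (k - 1)).1 (Nat.unpair (k - 1)).2) b - c) / Rn χ n = (χ n 0 a - c) / Rn χ n
      rw [h4]
    · filter_upwards with n
      have hr : ‖(r : ℂ)‖ = r := by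
        rw [Complex.norm_real, Real.norm_of_nonneg (hT.θ0.trans hT.θr).le]
      have h2 : uk bb uu k = 0 := if_neg hk
      refine ⟨(r : ℂ), (r : ℂ), hr, by rw [hr]; exact hT.r1, ?_, ?_⟩
      · rw [h2]
        exact hr
      · rw [hbase n k hk, hW0 n]

theorem tl_ex (h : PS f U J P Cr δ η ρ) (hM : Mn f P M)
    (hT : TGs 𝒰 f U J M P Cr δ c z θ r Mc ε S k t cc α x χ γ bb uu) :
    ∃ (κc Cc : ℕ → ℝ) (φ0 : ℂ → ℂ) (Θ F : ℕ → ℕ → ℂ → ℂ) (α' : ℕ → ℂ),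
      TL 𝒰 f U J P δ c θ r κc Cc t α χ γ bb uu φ0 Θ F α' := by
  have hR := tg_R hT
  have hR0 := tg_R0 hT
  have hR0' : ∀ᶠ n in (𝒰 : Filter ℕ), 0 < ‖Rn χ n‖ := hR0.mono fun n hn => norm_pos_iff.2 hn
  have hcJ : c ∈ J := h.CJ hT.cC
  obtain ⟨φ, F', α', hL⟩ := Pool.Agent.H23.XW2.ws2_lim (ws2 h hM hT)
  have hsz := fun u => tq_sz (δ := δ) h hT.M1 hT.θ0 hT.θr hT.r1 u
  choose κc Cc ε0 hκ hε0 hsz using hsz
  have hW0 : ∀ n, Wk f c t χ γ bb uu n 0 = fun v => (χ n 0 v - c) / Rn χ n := fun n => if_neg vv_zero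
  have hu0 : uk bb uu 0 = 0 := if_neg vv_zero
  have hpair : ∀ m l, 0 < l → l < m → bb l = bb m →
      (∀ n, Wk f c t χ γ bb uu n (Nat.pair m l + 1) = Θn f c t χ γ uu m l n) ∧
      (∀ n, Fk f c t χ bb n (Nat.pair m l + 1) = Ft f c t χ m l n) ∧ uk bb uu (Nat.pair m l + 1) = uu m l := by
    intro m l hl0 hl hb
    have hv : VV bb (Nat.pair m l + 1) := vv_pair hl0 hl hb
    refine ⟨fun n => ?_, fun n => ?_, ?_⟩
    · rw [Wk, if_pos hv, Nat.add_sub_cancel, Nat.unpair_pair]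
    · rw [Fk, if_pos hv, Nat.add_sub_cancel, Nat.unpair_pair]
    · rw [uk, if_pos hv, Nat.add_sub_cancel, Nat.unpair_pair]
  refine ⟨κc, Cc, φ 0, fun m l => φ (Nat.pair m l + 1), fun m l => F' (Nat.pair m l + 1), α',
    ⟨hL.cα, hL.hα, hL.cv, ?_, hL.z0, hL.dφ 0, hL.iφ 0, hL.oφ, hL.bφ, ?_, hκ, ?_, ?_, ?_, ?_, ?_, ?_, ?_, ?_, ?_, ?_, ?_⟩⟩
  · -- cφ
    have h1 := hL.cφ 0
    simp only [hW0] at h1
    exact h1
  · -- fφ
    intro v hv hth
    have h1 := hL.off 0 v hv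
    rw [hu0] at h1
    exact h1 hth
  · -- cθ
    intro m l hl0 hl hb
    have h1 := hL.cφ (Nat.pair m l + 1)
    simp only [(hpair m l hl0 hl hb).1] at h1
    exact h1
  · intro m l hl0 hl hb
    exact hL.dφ _
  · intro m l hl0 hl hb
    exact hL.iφ _
  · -- sθ
    intro m l hl0 hl hb
    have h1 := hL.cφ (Nat.pair m l + 1)
    simp only [(hpair m l hl0 hl hb).1] at h1
    have hq := tg_q h hM hT hl0 hl hb
    have hd : ∀ᶠ n in (𝒰 : Filter ℕ), DifferentiableOn ℂ (Θn f c t χ γ uu m l n) (ball 0 1) := by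
      filter_upwards [hq] with n hn
      obtain ⟨w, hq, -⟩ := hn
      exact (hq.d.sub_const c).div_const _
    have h0 : (0 : ℂ) ∈ ball (0 : ℂ) 1 := mem_ball_self one_pos
    have h2 := ((ulim_deriv 𝒰 isOpen_ball hd h1).tendsto_at h0).norm
    have h3 := (h1.tendsto_at h0).norm
    have hev : ∀ᶠ n in (𝒰 : Filter ℕ), κc (uu m l) ≤ ‖deriv (Θn f c t χ γ uu m l n) 0‖ ∧
        ‖deriv (Θn f c t χ γ uu m l n) 0‖ ≤ Cc (uu m l) ∧ ‖Θn f c t χ γ uu m l n 0‖ ≤ Cc (uu m l) := by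
      filter_upwards [hq, hT.w, hT.εt.eventually_le_const (hε0 (uu m l)), hR0'] with n hn1 hn2 hn3 hn4
      obtain ⟨w, hq, -⟩ := hn1
      obtain ⟨h1, h2, h3⟩ := hsz (uu m l) hq hcJ hn2 hn3
      have h4 : deriv (Θn f c t χ γ uu m l n) 0 = deriv (ϑ f (t n) (γ n) (t n m + (t n 0 - t n l)) (uu m l)) 0 / Rn χ n := by
        have h5 : Θn f c t χ γ uu m l n = fun v => (ϑ f (t n) (γ n) (t n m + (t n 0 - t n l)) (uu m l) v - c) / Rn χ n := rfl
        rw [h5, deriv_div_const, deriv_sub_const]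
      have h5 : Θn f c t χ γ uu m l n 0 = (ϑ f (t n) (γ n) (t n m + (t n 0 - t n l)) (uu m l) 0 - c) / Rn χ n := rfl
      rw [h4, h5, norm_div, norm_div, le_div_iff₀ hn4, div_le_iff₀ hn4, div_le_iff₀ hn4]
      exact ⟨h1, h2, h3⟩
    exact ⟨ge_of_tendsto h2 (hev.mono fun n hn => hn.1), le_of_tendsto h2 (hev.mono fun n hn => hn.2.1),
      le_of_tendsto h3 (hev.mono fun n hn => hn.2.2)⟩
  · -- fθ
    intro m l hl0 hl hb v hv hth
    have h1 := hL.off (Nat.pair m l + 1) v hv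
    rw [(hpair m l hl0 hl hb).2.2] at h1
    exact h1 hth
  · -- rel
    intro m l hl0 hl hb v hv
    have h1 := hL.rel (Nat.pair m l + 1) v hv
    rw [(hpair m l hl0 hl hb).2.2] at h1
    exact h1
  · intro m l hl0 hl hb
    exact hL.dF _
  · -- cF
    intro m l hl0 hl hb
    have h1 := hL.cF (Nat.pair m l + 1)
    simp only [(hpair m l hl0 hl hb).2.1] at h1
    exact h1
  · -- dm
    intro m l hl0 hl hb K hK hKs
    filter_upwards [hL.cK (Nat.pair m l + 1) K hK hKs, tg_q h hM hT hl0 hl hb, hR0, hT.w] with n hn1 hn2 hn3 hn4 w hw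
    obtain ⟨v, hv, hvw⟩ := hn1 hw
    rw [(hpair m l hl0 hl hb).1] at hvw
    obtain ⟨w', hq, -⟩ := hn2
    obtain ⟨h1, h2⟩ := hq.st v hv
    rw [← hvw, th_eq hn3]
    refine ⟨h1, ?_⟩
    rw [h2]
    have hv1 : ‖v‖ < 1 := by simpa using hv
    have h3 : BB b1 (α n) (uu m l) v ∈ ball (0 : ℂ) 1 := by
      simpa using (Pool.Agent.H23.XW.bb_norm (uu m l) hq.al v hv1.le).2.1 hv1
    exact (hn4.hU _ h3).1
  · -- cr
    intro m l hl0 hl hb
    have h1 := hL.cr (Nat.pair m l + 1)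
    rw [(hpair m l hl0 hl hb).2.2] at h1
    exact h1
  · -- cm
    intro m l hl0 hl hb
    have h1 : ∀ n : ℕ, ∃ w : ℂ, (∃ w : ℂ, Tq f U P θ r (uu m l) (t n l - t n m) (α n) (χ n 0)
      (ϑ f (t n) (γ n) (t n m + (t n 0 - t n l)) (uu m l)) (x n (uu m l)) w (BB b1 (α n) l 0) ∧
      BB b1 (α n) (uu m l) w = BB b1 (α n) m 0) → Tq f U P θ r (uu m l) (t n l - t n m) (α n) (χ n 0)
      (ϑ f (t n) (γ n) (t n m + (t n 0 - t n l)) (uu m l)) (x n (uu m l)) w (BB b1 (α n) l 0) ∧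
      BB b1 (α n) (uu m l) w = BB b1 (α n) m 0 := by
      intro n
      by_cases hn : ∃ w : ℂ, Tq f U P θ r (uu m l) (t n l - t n m) (α n) (χ n 0)
        (ϑ f (t n) (γ n) (t n m + (t n 0 - t n l)) (uu m l)) (x n (uu m l)) w (BB b1 (α n) l 0) ∧
        BB b1 (α n) (uu m l) w = BB b1 (α n) m 0
      · obtain ⟨w, hw⟩ := hn
        exact ⟨w, fun _ => hw⟩
      · exact ⟨0, fun h => absurd h hn⟩
    choose w hw using h1
    have h2 := (tg_q h hM hT hl0 hl hb).mono fun n hn => hw n hn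
    obtain ⟨a, ha, hla⟩ := Pool.Agent.H23.XW.lim_bd 𝒰 (v := w) (C := 1) (h2.mono fun n hn => by
      have h3 : ‖w n‖ < 1 := by simpa using hn.1.w1.1
      exact h3.le)
    have hα : ∀ i < uu m l, ‖α' i‖ < 1 := fun i _ => hL.hα i
    have h3 := Pool.Agent.H23.XW.bb_tend hL.cα (uu m l) hα w a hla ha
    have h4 : ‖BB b1 α' (uu m l) a‖ ≤ θ := le_of_tendsto h3.norm (h2.mono fun n hn => hn.1.w1.2.1)
    have ha1 : ‖a‖ < 1 := by
      refine lt_of_le_of_ne ha fun h5 => ?_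
      have h6 := (Pool.Agent.H23.XW.bb_norm (uu m l) hα a ha).2.2 h5
      have h7 := hT.θr.trans hT.r1
      linarith
    have ha1' : a ∈ ball (0 : ℂ) 1 := by simpa using ha1
    have h0 : ‖(0 : ℂ)‖ < 1 := by
      rw [norm_zero]
      exact one_pos
    have h5 : ∀ s, Tendsto (fun n => BB b1 (α n) s 0) (𝒰 : Filter ℕ) (𝓝 (BB b1 α' s 0)) := fun s =>
      Pool.Agent.H23.XW.bb_tend hL.cα s (fun i _ => hL.hα i) (fun _ => 0) 0 tendsto_const_nhds h0.le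
    refine ⟨a, ha1, ?_, ?_⟩
    · have h6 := hL.cφ (Nat.pair m l + 1)
      simp only [(hpair m l hl0 hl hb).1] at h6
      have h7 := Pool.Agent.H23.XW.tl_seq isOpen_ball h6 (hL.dφ _).continuousOn ha1' hla
      have h8 := hL.cφ 0
      simp only [hW0] at h8
      have h9 : BB b1 α' l 0 ∈ ball (0 : ℂ) 1 := by
        simpa using (Pool.Agent.H23.XW.bb_norm l (fun i _ => hL.hα i) 0 h0.le).2.1 h0
      have h10 := Pool.Agent.H23.XW.tl_seq isOpen_ball h8 (hL.dφ 0).continuousOn h9 (h5 l)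
      refine tendsto_nhds_unique h7 (h10.congr' ?_)
      filter_upwards [h2] with n hn
      have h11 := hn.1.w1.2.2.2
      show (χ n 0 (BB b1 (α n) l 0) - c) / Rn χ n = (ϑ f (t n) (γ n) (t n m + (t n 0 - t n l)) (uu m l) (w n) - c) / Rn χ n
      rw [h11]
    · refine tendsto_nhds_unique h3 ((h5 m).congr' ?_)
      filter_upwards [h2] with n hn
      exact hn.2.symm

theorem tl_end (h : PS f U J P Cr δ η ρ) (hM : Mn f P M)
    (hT : TGs 𝒰 f U J M P Cr δ c z θ r Mc ε S k t cc α x χ γ bb uu) {κc Cc : ℕ → ℝ} {φ0 : ℂ → ℂ} {Θ F : ℕ → ℕ → ℂ → ℂ}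
    {α' : ℕ → ℂ} (hL : TL 𝒰 f U J P δ c θ r κc Cc t α χ γ bb uu φ0 Θ F α') {l m : ℕ} (hl0 : 0 < l) (hl : l < m)
    (hb : bb l = bb m) :
    ¬ ∀ s, α' s = 0 := by
  intro h0
  have hR := tg_R hT
  have hR0 := tg_R0 hT
  have hbb : ∀ s, BB b1 α' s 0 = 0 := by
    intro s
    induction s with
    | zero => rfl
    | succ s ih =>
      have h1 : Bl (b1 s) (α' s) 0 = 0 := by simp [Bl, h0 s]
      have h2 : BB b1 α' (s + 1) 0 = BB b1 α' s (Bl (b1 s) (α' s) 0) := rfl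
      rw [h2, h1, ih]
  obtain ⟨w, hw1, hw2, hw3⟩ := hL.cm m l hl0 hl hb
  rw [hbb l, hL.zφ] at hw2
  rw [hbb m] at hw3
  have hwb : w ∈ ball (0 : ℂ) 1 := by simpa using hw1
  have hmem : (0 : ℂ) ∈ Θ m l '' ball 0 1 := ⟨w, hwb, hw2⟩
  have hopen : IsOpen (Θ m l '' ball 0 1) := Pool.Agent.H23.XW.ih_open isOpen_ball (hL.dθ m l hl0 hl hb) (hL.iθ m l hl0 hl hb)
  have hF0 : F m l 0 = 0 := by
    have h1 := hL.rel m l hl0 hl hb w hwb
    rw [hw2, hw3, hL.zφ] at h1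
    exact h1
  refine Pool.Agent.H23.XW2.lim_ne h hT.cC hR hR0 (K := fun n => t n l - t n m) ?_ hopen hmem ?_ (hL.cF m l hl0 hl hb) hF0
  · filter_upwards [hT.tw, hT.St m] with n hn1 hn2
    have h1 := tg_t hn1 hl hn2
    omega
  · intro C hC hCs
    filter_upwards [hL.dm m l hl0 hl hb C hC hCs, hR0] with n hn1 hn2 w hw
    refine ⟨(hn1 w hw).1, ?_⟩
    unfold Ft
    field_simp
    ring

end Pool.Agent.H64.XG
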