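import Pool.Agent.H91.GS.Defs

/-!
# Chapter X*: the structure `XT` of GEO* without marked points

`XN`: all fields of `XT` (H91/GS/Defs) except `mq`. `XN.xt`: with `mq` it is `XT`.
-/

set_option autoImplicit false

open Filter Topology Metric Set

namespace Pool.Agent.H64.XG

open Pool.Agent.H66.GEO
open Pool.Agent.H91.GS (Mk XT)

/-- `XT` without `mq` -/
structure XN (Q : Set ℂ) (Lf : Set ℂ → (ℂ → ℂ) → (ℂ → ℂ) → Prop) (th r : ℝ) (φ0 : ℂ → ℂ) (u : ℕ → ℕ) (θ F : ℕ → ℂ → ℂ)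
    (ω α : ℕ → ℂ) : Prop where
  th0 : 0 < th
  thr : th < r
  r1 : r < 1
  ut : Tendsto u atTop atTop
  dφ : DifferentiableOn ℂ φ0 (ball 0 1)
  iφ : InjOn φ0 (ball 0 1)
  oφ : ∀ x ∈ ball (0 : ℂ) 1, φ0 (-x) = - φ0 x
  bφ : Bornology.IsBounded (φ0 '' ball 0 1)
  dθ : ∀ k, DifferentiableOn ℂ (θ k) (ball 0 1)
  iθ : ∀ k, InjOn (θ k) (ball 0 1)
  hω : ∀ m, ‖ω m‖ = 1
  hα : ∀ m, ‖α m‖ < 1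
  cv : ∀ m, ‖BB ω α m (ω m * α m)‖ ≤ th
  rel : ∀ k, ∀ x ∈ ball (0 : ℂ) 1, F k (θ k x) = φ0 (BB ω α (u k) x)
  of0 : ∀ x ∈ ball (0 : ℂ) 1, th < ‖x‖ → φ0 x ∉ Q
  off : ∀ k, ∀ x ∈ ball (0 : ℂ) 1, th < ‖BB ω α (u k) x‖ → θ k x ∉ Q
  pb : ∀ (k : ℕ) {S : Set ℂ} {H G' G : ℂ → ℂ}, Lf S H G' → (∀ v ∈ S, H v ∈ θ k '' ball 0 1) →
    Lf S (fun v => F k (H v)) G → ∃ (a : ℝ) (b : ℂ), a ≠ 0 ∧ ∀ v ∈ S, G v = a * G' v + b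
  cr : ∀ k : ℕ, ∃ x y : ℂ, ‖x‖ = r ∧ ‖y‖ < 1 ∧ ‖BB ω α (u k) y‖ = r ∧ θ k y = φ0 x
  ex : ∃ (S : Set ℂ) (H G : ℂ → ℂ) (v x : ℂ), Lf S H G ∧ v ∈ S ∧ ‖x‖ < 1 ∧ th < ‖x‖ ∧ H v = φ0 x

theorem XN.xt {Q : Set ℂ} {Lf : Set ℂ → (ℂ → ℂ) → (ℂ → ℂ) → Prop} {th r : ℝ} {φ0 : ℂ → ℂ} {u : ℕ → ℕ} {θ F : ℕ → ℂ → ℂ}
    {ω α : ℕ → ℂ} (h : XN Q Lf th r φ0 u θ F ω α)
    (hm : ∀ k : ℕ, ∃ y ∈ ball (0 : ℂ) 1, ‖BB ω α (u k) y‖ < r ∧ θ k y ∈ Q ∧ Mk Lf (θ k y)) : XT Q Lf th r φ0 u θ F ω α where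
  th0 := h.th0
  thr := h.thr
  r1 := h.r1
  ut := h.ut
  dφ := h.dφ
  iφ := h.iφ
  oφ := h.oφ
  bφ := h.bφ
  dθ := h.dθ
  iθ := h.iθ
  hω := h.hω
  hα := h.hα
  cv := h.cv
  rel := h.rel
  of0 := h.of0
  off := h.off
  pb := fun k {S H G' G} h1 h2 h3 => h.pb k h1 h2 h3
  cr := h.cr
  ex := h.ex
  mq := hm

end Pool.Agent.H64.XG
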