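import Pool.Agent.H64.XG.Defs
import Pool.Agent.H44.LB.If
import Pool.Agent.H65.MP.Defs
import Pool.Agent.H91.GS.Defs
import Pool.Agent.H3.SZ2.Tt
import Pool.Agent.H41.XG.TyC

/-!
# Chapter X*: strong types for the limit (G6)

`mk_of`: a point `w` of the limit set which is `0` or not regular is MARKED: no lift over the collar of a bounded window around `w` is
`4πi` periodic. As H15/TY/Main `lr_typ`, with `typS` (H44/LB/If): the finite lift over the collar of `Φ = c + R n * φ (ρ' * ·)` closes after two turns for almost all `n`,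
so it is `g ∘ exp`, `Un f U J δ (m n) Φ g` (H41/XG/TyC). `w = 0`: contradicts `lemS` (`c = Φ (x0 / ρ')`; the core: `c ∈ P`, so `‖x0 / ρ'‖ ≤ θ`).
`w ≠ 0`: `w = φ x0`; `G n = (g n (φ⁻¹ · / ρ') - z) / σ n` on a ball at `w` are branches; bounded, derivative bounded below (Koebe): `w ∈ Rq`.
-/

set_option autoImplicit false

open Filter Topology Metric Set MeasureTheory

namespace Pool.Agent.H64.XG

open Pool.Agent.H56.UD
open Pool.Agent.H66.DIM (Mn)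
open Pool.Agent.H64.XL (LT Lr)
open Pool.Agent.H65.MP (Rq)
open Pool.Agent.H91.GS (Mk)
open Pool.Agent.H44.LA (Rc)

variable {f : ℂ → ℂ} {U J P M Cr E : Set ℂ} {δ b0 : ℝ} {η : ℂ → ℂ → ℂ} {ρ : ℝ} {X hh μ : ℂ → ℂ} {c z : ℂ}

/-- univalent pull backs -/
private theorem un_inj {n : ℕ} {Φ g : ℂ → ℂ} (h : Pool.Agent.H44.LA.Un f U J δ n Φ g) (hi : InjOn Φ (ball 0 1)) :
    InjOn g (ball 0 1) := by
  intro v hv w hw hvw
  refine hi hv hw ?_
  rw [← (h.2 v hv).2, ← (h.2 w hw).2, hvw]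

theorem mk_of (h : PS f U J P Cr δ η ρ) (hX : FX f U J E δ X hh μ b0) (hM : Mn f P M) (hCP : Cr ⊆ P)
    (hin : ∀ c' ∈ Cr, ∀ j : ℕ, f^[j] c' ∈ M → c' ∈ M) (hz : z ∈ E) (hrc : ∀ b ∈ Cr, b ∈ M → Rc f b z) (hc : c ∈ Cr) (hcM : c ∈ M)
    {𝒰 : Ultrafilter ℕ} {m : ℕ → ℕ} {R σ : ℕ → ℂ} (hR : ∀ n, R n ≠ 0) (hRt : Tendsto R (𝒰 : Filter ℕ) (𝓝 0))
    (hσ : ∀ n, σ n ≠ 0)
    (hT : LT 𝒰 (Fn f (fun _ => z) m (fun _ => c) R σ) (Dn f U J δ (fun _ => z) m σ) (Pn P (fun _ => c) R)) {w : ℂ}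
    (hw : w ∈ Ph 𝒰 (Pn P (fun _ => c) R))
    (hw' : w = 0 ∨ w ∉ Rq 𝒰 (Fn f (fun _ => z) m (fun _ => c) R σ) (Dn f U J δ (fun _ => z) m σ)) :
    Mk (Lr 𝒰 (Fn f (fun _ => z) m (fun _ => c) R σ) (Dn f U J δ (fun _ => z) m σ) (Pn P (fun _ => c) R)) w := by
  intro φ G d hd0 hd1 dφ iφ bφ hwφ hL hper
  obtain ⟨x0, hx0, hxw⟩ := hwφ
  have hx0' : ‖x0‖ < 1 := mem_ball_zero_iff.1 hx0
  have hcJ : c ∈ J := h.PJ (hM.sub hcM)
  obtain ⟨ρ', θ, A, a, e, h1, h2, h3, h4, h5, h6, hco⟩ :=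
    Pool.Agent.H41.XG.ty_core h hX hM hCP hin hz hrc hcM hR hRt hT hd0 hd1 dφ iφ bφ hx0' hL hper
  have hρ0 : 0 < ρ' := (norm_nonneg x0).trans_lt h1
  have hρc : (ρ' : ℂ) ≠ 0 := Complex.ofReal_ne_zero.2 hρ0.ne'
  rcases hw' with h0 | hnR
  · -- the critical point
    obtain ⟨K1, hK1, hK⟩ := Pool.Agent.H3.SZ2.gr2 h5
    obtain ⟨ε0, hε0, hlem⟩ := Pool.Agent.H44.LB.lemS h hX hz hc (hrc c hc hcM) (M := K1 + |A| / a * K1) h3 h4
    obtain ⟨n, g, hW, hU, g1, g2, g3⟩ := (hco ε0 hε0).exists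
    have hgi := un_inj hU hW.inj
    obtain ⟨k1, -⟩ := hK g hU.1 hgi e 0 le_rfl (by rw [norm_zero]; exact norm_nonneg _)
    obtain ⟨-, k2⟩ := hK g hU.1 hgi 0 0 (by rw [norm_zero]; exact norm_nonneg _) (by rw [norm_zero]; exact norm_nonneg _)
    obtain ⟨-, k3⟩ := hK g hU.1 hgi e 0 le_rfl (by rw [norm_zero]; exact norm_nonneg _)
    have hΦ0 : c + R n * φ (ρ' * (x0 / ρ')) = c := by
      rw [mul_div_cancel₀ _ hρc, hxw, h0, mul_zero, add_zero]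
    have hx1 : ‖x0 / (ρ' : ℂ)‖ < 1 := by
      rw [norm_div, Complex.norm_real, Real.norm_eq_abs, abs_of_pos hρ0, div_lt_one hρ0]
      exact h1
    refine hlem 0 (m n) c (x0 / ρ') ε0 _ g hcJ le_rfl hW ?_ hΦ0 hU.1 (fun v hv => hU.2 v hv) ?_
    · by_contra h7
      refine hW.col _ (not_le.1 h7) hx1 ?_
      show c + R n * φ (ρ' * (x0 / ρ')) ∈ P
      rw [hΦ0]
      exact hM.sub hcM
    · have e1 : A * ‖σ n‖ ≤ |A| / a * ‖deriv g e‖ := by
        calc A * ‖σ n‖ ≤ |A| * ‖σ n‖ := mul_le_mul_of_nonneg_right (le_abs_self A) (norm_nonneg _)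
          _ = |A| / a * (a * ‖σ n‖) := by field_simp
          _ ≤ |A| / a * ‖deriv g e‖ := mul_le_mul_of_nonneg_left g2 (by positivity)
      have e2 : |A| / a * ‖deriv g e‖ ≤ |A| / a * (K1 * ‖deriv g 0‖) := mul_le_mul_of_nonneg_left k1 (by positivity)
      calc ‖g 0 - z‖ = ‖(g e - z) - (g e - g 0)‖ := by congr 1; ring
        _ ≤ ‖g e - z‖ + ‖g e - g 0‖ := norm_sub_le _ _
        _ ≤ (K1 + |A| / a * K1) * ‖deriv g 0‖ := by linarith
  · -- the other points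
    apply hnR
    obtain ⟨r2, hr1, hr2⟩ := exists_between h1
    have hr20 : 0 < r2 := (norm_nonneg x0).trans_lt hr1
    have hr21 : r2 < 1 := hr2.trans h2
    have hVo : IsOpen (φ '' ball 0 r2) :=
      Pool.Agent.H39.HO.inj_open isOpen_ball dφ iφ (ball_subset_ball hr21.le) isOpen_ball
    obtain ⟨ρw, hρw, hρws⟩ := Metric.isOpen_iff.1 hVo w ⟨x0, mem_ball_zero_iff.2 hr1, hxw⟩
    set ψ : ℂ → ℂ := Function.invFunOn φ (ball 0 1) with hψdef
    have hψ : ∀ x ∈ ball (0 : ℂ) 1, ψ (φ x) = x := fun x hx =>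
      iφ (Function.invFunOn_mem ⟨x, hx, rfl⟩) hx (Function.invFunOn_eq ⟨x, hx, rfl⟩)
    have hψd : DifferentiableOn ℂ ψ (φ '' ball 0 1) := Pool.Agent.H39.HO.inj_hol isOpen_ball dφ iφ
    have hψw : ∀ v ∈ ball w ρw, ‖ψ v‖ < r2 ∧ φ (ψ v) = v := by
      intro v hv
      obtain ⟨x, hx, rfl⟩ := hρws hv
      rw [hψ x (ball_subset_ball hr21.le hx)]
      exact ⟨mem_ball_zero_iff.1 hx, rfl⟩
    have hr3 : max (r2 / ρ') ‖e‖ < 1 := max_lt ((div_lt_one hρ0).2 hr2) h5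
    obtain ⟨K1, hK1, hK⟩ := Pool.Agent.H3.SZ2.gr2 hr3
    have hK0 : 0 < K1 := by linarith
    have hdx : ∀ v ∈ ball w ρw, ‖ψ v / (ρ' : ℂ)‖ ≤ r2 / ρ' := by
      intro v hv
      rw [norm_div, Complex.norm_real, Real.norm_eq_abs, abs_of_pos hρ0]
      exact div_le_div_of_nonneg_right (hψw v hv).1.le hρ0.le
    have hdx1 : ∀ v ∈ ball w ρw, ψ v / (ρ' : ℂ) ∈ ball (0 : ℂ) 1 := fun v hv =>
      mem_ball_zero_iff.2 ((hdx v hv).trans_lt ((div_lt_one hρ0).2 hr2))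
    have hww : w ∈ ball w ρw := mem_ball_self hρw
    have hψD : HasDerivAt ψ (deriv ψ w) w :=
      (hψd.differentiableAt ((Pool.Agent.H39.HO.inj_open isOpen_ball dφ iφ subset_rfl isOpen_ball).mem_nhds
        ⟨x0, hx0, hxw⟩)).hasDerivAt
    have hψ0 : deriv ψ w * deriv φ x0 = 1 := by
      have e1 : HasDerivAt φ (deriv φ x0) x0 := (dφ.differentiableAt (isOpen_ball.mem_nhds hx0)).hasDerivAt
      have e2 : HasDerivAt ψ (deriv ψ w) (φ x0) := by rw [hxw]; exact hψD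
      have e3 := e2.comp x0 e1
      refine e3.unique ((hasDerivAt_id x0).congr_of_eventuallyEq ?_)
      filter_upwards [isOpen_ball.mem_nhds hx0] with x hx
      exact hψ x hx
    have hψn : 0 < ‖deriv ψ w‖ := by
      refine norm_pos_iff.2 fun h7 => ?_
      rw [h7, zero_mul] at hψ0
      exact zero_ne_one hψ0
    refine ⟨ρw, max (K1 * A + A) (K1 * ρ' / (a * ‖deriv ψ w‖)), hρw, ?_⟩
    filter_upwards [hco 1 one_pos] with n hn
    obtain ⟨g, hW, hU, g1, g2, g3⟩ := hn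
    have hgi := un_inj hU hW.inj
    have hσn : 0 < ‖σ n‖ := norm_pos_iff.2 (hσ n)
    have hgψ : ∀ v ∈ ball w ρw, HasDerivAt (fun v => (g (ψ v / ρ') - z) / σ n)
        (deriv g (ψ v / ρ') * (deriv ψ v / ρ') / σ n) v := by
      intro v hv
      have e1 : HasDerivAt ψ (deriv ψ v) v :=
        (hψd.differentiableAt ((Pool.Agent.H39.HO.inj_open isOpen_ball dφ iφ subset_rfl isOpen_ball).mem_nhds
          (image_mono (ball_subset_ball hr21.le) (hρws hv)))).hasDerivAt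
      have e2 := (hU.1.differentiableAt (isOpen_ball.mem_nhds (hdx1 v hv))).hasDerivAt
      exact ((e2.comp v (e1.div_const (ρ' : ℂ))).sub_const z).div_const (σ n)
    refine ⟨fun v => (g (ψ v / ρ') - z) / σ n, ?_, ?_, ?_⟩
    · exact fun v hv => (hgψ v hv).differentiableAt.differentiableWithinAt
    · intro v hv
      have e1 : z + σ n * ((g (ψ v / ρ') - z) / σ n) = g (ψ v / ρ') := by
        rw [mul_div_cancel₀ _ (hσ n)]
        ring
      obtain ⟨u1, u2⟩ := hU.2 _ (hdx1 v hv)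
      refine ⟨?_, ?_, ?_⟩
      · show z + σ n * ((g (ψ v / ρ') - z) / σ n) ∈ dm f U J δ (m n)
        rw [e1]
        exact u1
      · show (f^[m n] (z + σ n * ((g (ψ v / ρ') - z) / σ n)) - c) / R n = v
        rw [e1, u2]
        show (c + R n * φ (ρ' * (ψ v / ρ')) - c) / R n = v
        rw [mul_div_cancel₀ _ hρc, (hψw v hv).2, add_sub_cancel_left, mul_div_cancel_left₀ _ (hR n)]
      · refine le_trans ?_ (le_max_left _ _)
        show ‖(g (ψ v / ρ') - z) / σ n‖ ≤ K1 * A + A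
        rw [norm_div, div_le_iff₀ hσn]
        obtain ⟨-, k3⟩ := hK g hU.1 hgi (ψ v / ρ') e ((hdx v hv).trans (le_max_left _ _)) (le_max_right _ _)
        calc ‖g (ψ v / ρ') - z‖ = ‖(g (ψ v / ρ') - g e) + (g e - z)‖ := by congr 1; ring
          _ ≤ ‖g (ψ v / ρ') - g e‖ + ‖g e - z‖ := norm_add_le _ _
          _ ≤ K1 * (A * ‖σ n‖) + A * ‖σ n‖ := add_le_add (k3.trans (mul_le_mul_of_nonneg_left g3 hK0.le)) g1
          _ = (K1 * A + A) * ‖σ n‖ := by ring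
    · rw [(hgψ w hww).deriv, norm_div, norm_mul, norm_div, Complex.norm_real, Real.norm_eq_abs, abs_of_pos hρ0]
      obtain ⟨k1, -⟩ := hK g hU.1 hgi e (ψ w / ρ') (le_max_right _ _) ((hdx w hww).trans (le_max_left _ _))
      have e1 : a * ‖σ n‖ ≤ K1 * ‖deriv g (ψ w / ρ')‖ := g2.trans k1
      have e2 : a / K1 ≤ ‖deriv g (ψ w / ρ')‖ / ‖σ n‖ := by
        rw [div_le_div_iff₀ hK0 hσn]
        linarith
      have e3 : 0 ≤ ‖deriv g (ψ w / ρ')‖ * (‖deriv ψ w‖ / ρ') / ‖σ n‖ := by positivity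
      calc (1 : ℝ) = K1 * ρ' / (a * ‖deriv ψ w‖) * (a / K1 * (‖deriv ψ w‖ / ρ')) := by field_simp
        _ ≤ K1 * ρ' / (a * ‖deriv ψ w‖) * (‖deriv g (ψ w / ρ')‖ / ‖σ n‖ * (‖deriv ψ w‖ / ρ')) :=
          mul_le_mul_of_nonneg_left (mul_le_mul_of_nonneg_right e2 (by positivity)) (by positivity)
        _ = K1 * ρ' / (a * ‖deriv ψ w‖) * (‖deriv g (ψ w / ρ')‖ * (‖deriv ψ w‖ / ρ') / ‖σ n‖) := by ring
        _ ≤ max (K1 * A + A) (K1 * ρ' / (a * ‖deriv ψ w‖)) * (‖deriv g (ψ w / ρ')‖ * (‖deriv ψ w‖ / ρ') / ‖σ n‖) :=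
          mul_le_mul_of_nonneg_right (le_max_right _ _) e3

end Pool.Agent.H64.XG
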