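import Pool.Agent.H64.XG.TgEx
import Pool.Agent.H64.XL.Seq

/-!
# ROB => DIM, chapter X*: sequences of towers along an ultrafilter

`tgs_ex`: the base windows of `Nvs` carry towers of heights `S n → ∞`; the critical points and the levels have limits (finitely many
values).
-/

set_option autoImplicit false

open Filter Topology Metric Set MeasureTheory

namespace Pool.Agent.H64.XG

open Pool.Agent.H56.UD
open Pool.Agent.H66.GEO (Bl BB)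
open Pool.Agent.H64.XL (b1 Wt Nvs)
open Pool.Agent.H66.DIM (Mn Tz)

variable {f : ℂ → ℂ} {U J P M Cr : Set ℂ} {δ : ℝ} {η : ℂ → ℂ → ℂ} {ρ : ℝ} {c z : ℂ} {θ θ' r Mc : ℝ}
  {ε : ℕ → ℝ} {m : ℕ → ℕ} {y : ℕ → ℂ} {χ g : ℕ → ℂ → ℂ}

/-- an ultrafilter chooses one of finitely many values -/
theorem uval {β : Type*} (V : Ultrafilter ℕ) {N : ℕ → β} {T : Set β} (hT : T.Finite) (h : ∀ᶠ n in (V : Filter ℕ), N n ∈ T) :
    ∃ b ∈ T, ∀ᶠ n in (V : Filter ℕ), N n = b := by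
  have h1 : (⋃ b ∈ T, {n | N n = b}) ∈ V := by
    refine Filter.mem_of_superset h fun n hn => ?_
    simp only [mem_iUnion]
    exact ⟨N n, hn, rfl⟩
  obtain ⟨b, hb, hu⟩ := (Ultrafilter.finite_biUnion_mem_iff hT).1 h1
  exact ⟨b, hb, hu⟩

theorem seq_tg (hT : ∀ s : ℕ, ∃ e : ℝ, 0 < e ∧ ∀ χ0 : ℂ → ℂ, Wt f U J P δ c θ Mc e χ0 →
      ∃ (k t : ℕ → ℕ) (cc α x : ℕ → ℂ) (Y γ : ℕ → ℂ → ℂ), Y 0 = χ0 ∧ cc 0 = c ∧ Tg f U M P Cr z θ r s k t cc α x Y γ)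
    (hN : Nvs f U J P δ c z θ θ' Mc ε m y χ g) :
    ∃ (S : ℕ → ℕ) (k t : ℕ → ℕ → ℕ) (cc α x : ℕ → ℕ → ℂ) (Y γ : ℕ → ℕ → ℂ → ℂ), Tendsto S atTop atTop ∧
      (∀ n, Y n 0 = χ n) ∧ ∀ᶠ n in atTop, Tg f U M P Cr z θ r (S n) (k n) (t n) (cc n) (α n) (x n) (Y n) (γ n) := by
  choose e he hT using hT
  classical
  obtain ⟨S, hS⟩ : ∃ S : ℕ → ℕ, ∀ n, S n = Nat.findGreatest (fun s => ε n ≤ e s) n := ⟨_, fun n => rfl⟩
  have hev : ∀ s : ℕ, ∀ᶠ n in atTop, s ≤ n ∧ ε n ≤ e s := by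
    intro s
    filter_upwards [eventually_ge_atTop s, hN.εt.eventually_le_const (he s)] with n h1 h2
    exact ⟨h1, h2⟩
  have hSt : Tendsto S atTop atTop := by
    rw [Filter.tendsto_atTop]
    intro s
    filter_upwards [hev s] with n hn
    rw [hS]
    exact Nat.le_findGreatest hn.1 hn.2
  have hex : ∀ n, ∃ (k t : ℕ → ℕ) (cc α x : ℕ → ℂ) (Y γ : ℕ → ℂ → ℂ), Y 0 = χ n ∧ (ε n ≤ e 0 →
      Tg f U M P Cr z θ r (S n) k t cc α x Y γ) := by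
    intro n
    by_cases h0 : ε n ≤ e 0
    · have h1 : ε n ≤ e (S n) := by
        rw [hS]
        exact Nat.findGreatest_spec (P := fun s => ε n ≤ e s) (Nat.zero_le n) h0
      obtain ⟨k, t, cc, α, x, Y, γ, h2⟩ := hT (S n) (χ n) ((hN.w n).mono h1)
      exact ⟨k, t, cc, α, x, Y, γ, h2.1, fun _ => h2.2.2⟩
    · exact ⟨fun _ => 0, fun _ => 0, fun _ => 0, fun _ => 0, fun _ => 0, fun _ => χ n, fun _ => χ n, rfl, fun h => absurd h h0⟩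
  choose k t cc α x Y γ hX0 hX using hex
  refine ⟨S, k, t, cc, α, x, Y, γ, hSt, hX0, ?_⟩
  filter_upwards [hev 0] with n hn
  exact hX n hn.2

theorem tgs_ex (h : PS f U J P Cr δ η ρ) (hM : Mn f P M) (hA : LAs f U J P M Cr δ z) (hzJ : z ∈ J) (hc : c ∈ Cr) (hcM : c ∈ M)
    (hc' : ∀ c' ∈ Cr, c' ∉ M → ∃ ε : ℝ, 0 < ε ∧ ∀ n, f^[n] z ∉ ball c' ε)
    (hrc : ∀ ε : ℝ, 0 < ε → ∀ N : ℕ, ∃ n ≥ N, f^[n] z ∈ ball c ε) (hN : Nvs f U J P δ c z θ θ' Mc ε m y χ g)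
    (hθr : θ < r) (hr1 : r < 1) (𝒰 : Ultrafilter ℕ) (hU : (𝒰 : Filter ℕ) ≤ atTop) :
    ∃ (S : ℕ → ℕ) (k t : ℕ → ℕ → ℕ) (cc α x : ℕ → ℕ → ℂ) (Y γ : ℕ → ℕ → ℂ → ℂ) (bb : ℕ → ℂ) (uu : ℕ → ℕ → ℕ),
      (∀ n, Y n 0 = χ n) ∧ (∀ s, bb s ∈ Cr) ∧ TGs 𝒰 f U J M P Cr δ c z θ r Mc ε S k t cc α x Y γ bb uu := by
  obtain ⟨S, k, t, cc, α, x, Y, γ, hS, hY, hT⟩ := seq_tg (tg_ex h hM hA hzJ hc hcM hc' hrc hN.θ0 hθr hr1) hN
  have hTU : ∀ᶠ n in (𝒰 : Filter ℕ), Tg f U M P Cr z θ r (S n) (k n) (t n) (cc n) (α n) (x n) (Y n) (γ n) := hU hT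
  have hSU : ∀ s : ℕ, ∀ᶠ n in (𝒰 : Filter ℕ), s ≤ S n := fun s => hU (hS.eventually_ge_atTop s)
  have hε : Tendsto ε (𝒰 : Filter ℕ) (𝓝 0) := hN.εt.mono_left hU
  have hW : ∀ n, Wt f U J P δ c θ Mc (ε n) (Y n 0) := fun n => by
    rw [hY n]
    exact hN.w n
  have hb : ∀ s : ℕ, ∃ b ∈ Cr, ∀ᶠ n in (𝒰 : Filter ℕ), cc n s = b := fun s => by
    refine uval 𝒰 h.Cf ?_
    filter_upwards [hTU, hSU s] with n h1 h2
    exact (h1.c0 s h2).2.1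
  have hu : ∀ m l : ℕ, ∃ u ∈ Set.Iic m, ∀ᶠ n in (𝒰 : Filter ℕ), Nn (t n) m l = u := fun m l => by
    refine uval 𝒰 (Set.finite_Iic m) (Eventually.of_forall fun n => ?_)
    exact Nat.findGreatest_le m
  choose bb hbb1 hbb2 using hb
  choose uu _ huu using hu
  exact ⟨S, k, t, cc, α, x, Y, γ, bb, uu, hY, hbb1, ⟨hN.θ0, hθr, hr1, hN.M1, hcM, hc, hε, Eventually.of_forall hW, hTU, hSU, hbb2,
    huu⟩⟩

end Pool.Agent.H64.XG
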