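import Pool.Agent.H56.TH.MR
import Pool.Agent.H80.AJ.Distort

/-!
# Shift: the time shift of a frame by a fixed local inverse

`loc_it`: the local inverse of `f^[i]` at a point of `J` whose orbit avoids the critical points. `shift`: a small frame for `f^[i] z` gives a small
frame for `z`, the constant is multiplied by `4` (the local inverse is almost linear at small scales).
-/

set_option autoImplicit false

open Filter Topology Metric Set MeasureTheory

namespace Pool.Agent.H64.XG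

open Pool.Agent.H56.UD Pool.Agent.H56.TH Pool.Agent.H80.AJ

variable {f : ℂ → ℂ} {U J P Cr : Set ℂ} {δ : ℝ} {η : ℂ → ℂ → ℂ} {r₀ : ℝ}

theorem ps_itJ (h : PS f U J P Cr δ η r₀) (k : ℕ) {z : ℂ} (hz : z ∈ J) : f^[k] z ∈ J := by
  induction k with
  | zero => exact hz
  | succ k ih =>
    rw [Function.iterate_succ_apply']
    exact h.Jf _ ih

theorem ps_der (h : PS f U J P Cr δ η r₀) {z : ℂ} (hz : z ∈ J) (hc : z ∉ Cr) : deriv f z ≠ 0 := by
  obtain ⟨δ₁, hδ₁, -, hl⟩ := h.loc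
  have hzU := h.JU hz
  exact mr_der hδ₁ (h.fd.differentiableAt (h.Uo.mem_nhds hzU))
    (hl (f z) (h.Jf _ hz) z hzU (mem_ball_self hδ₁)) h.nf hc

theorem loc_it (h : PS f U J P Cr δ η r₀) {z : ℂ} (hz : z ∈ J) (hc : ∀ n, f^[n] z ∉ Cr) (i : ℕ) :
    ∃ (s : ℝ) (G : ℂ → ℂ), 0 < s ∧ DifferentiableOn ℂ G (ball (f^[i] z) s) ∧ G (f^[i] z) = z ∧
      ∀ u ∈ ball (f^[i] z) s, (∀ j < i, f^[j] (G u) ∈ U) ∧ f^[i] (G u) = u := by
  induction i with
  | zero =>
    exact ⟨1, id, one_pos, differentiableOn_id, rfl, fun u _ => ⟨fun j hj => absurd hj (Nat.not_lt_zero j), rfl⟩⟩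
  | succ i ih =>
    obtain ⟨s, G, hs, hG, hGz, hGv⟩ := ih
    obtain ⟨y, hy⟩ : ∃ y, y = f^[i] z := ⟨_, rfl⟩
    have hyJ : y ∈ J := hy ▸ ps_itJ h i hz
    obtain ⟨r1, hr1, h1⟩ := mr_unif (L := {y}) h.Uo h.fd isCompact_singleton (singleton_subset_iff.2 (h.JU hyJ))
      (fun x hx => by rw [mem_singleton_iff.1 hx]; exact ps_der h hyJ (hy ▸ hc i)) one_pos
    obtain ⟨s', hs', -, h2⟩ := h1 (min r1 s) (lt_min hr1 hs) (min_le_left _ _)
    obtain ⟨h3, -, -, -, g, hg, hgy, hgv⟩ := h2 y (mem_singleton y)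
    rw [← hy] at hG hGz hGv
    have e1 : f^[i + 1] z = f y := by rw [hy, Function.iterate_succ_apply']
    rw [e1]
    have hm : MapsTo g (ball (f y) s') (ball y s) := fun u hu =>
      ball_subset_ball (min_le_right _ _) (hgv u hu).1
    refine ⟨s', fun u => G (g u), hs', hG.comp hg hm, ?_, fun u hu => ?_⟩
    · show G (g (f y)) = z
      rw [hgy, hGz]
    · obtain ⟨h4, h5⟩ := hGv (g u) (hm hu)
      refine ⟨fun j hj => ?_, ?_⟩
      · rcases Nat.lt_succ_iff_lt_or_eq.1 hj with h6 | h6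
        · exact h4 j h6
        · rw [h6]
          show f^[i] (G (g u)) ∈ U
          rw [h5]
          exact h3 (hgv u hu).1
      · show f^[i + 1] (G (g u)) = u
        rw [Function.iterate_succ_apply', h5]
        exact (hgv u hu).2

theorem shift (h : PS f U J P Cr δ η r₀) {z : ℂ} (hz : z ∈ J) (hc : ∀ n, f^[n] z ∉ Cr) (i : ℕ) {C κ : ℝ} (hC : 0 < C)
    (hκ : 0 < κ) : ∃ κ' : ℝ, 0 < κ' ∧ ∀ (m : ℕ) (x : ℂ) (R : ℝ) (g : ℂ → ℂ), 0 < R → DifferentiableOn ℂ g (ball x (2 * R)) →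
      (∀ u ∈ ball x (2 * R), (∀ j < m, f^[j] (g u) ∈ U) ∧ f^[m] (g u) = u) → ‖g x - f^[i] z‖ ≤ C * (R * ‖deriv g x‖) →
      R * ‖deriv g x‖ < κ' → ∃ G : ℂ → ℂ, DifferentiableOn ℂ G (ball x R) ∧
        (∀ u ∈ ball x R, (∀ j < m + i, f^[j] (G u) ∈ U) ∧ f^[m + i] (G u) = u) ∧
        ‖G x - z‖ ≤ 4 * C * (R * ‖deriv G x‖) ∧ R * ‖deriv G x‖ < κ := by
  obtain ⟨s, G₀, hs, hG, hGz, hGv⟩ := loc_it h hz hc i
  obtain ⟨y, hy⟩ : ∃ y, y = f^[i] z := ⟨_, rfl⟩
  rw [← hy] at hG hGz hGv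
  rw [← hy]
  have hGi : InjOn G₀ (ball y s) := fun u hu u' hu' he => by
    rw [← (hGv u hu).2, ← (hGv u' hu').2, he]
  obtain ⟨a, ha⟩ : ∃ a, a = ‖deriv G₀ y‖ := ⟨_, rfl⟩
  have ha0 : 0 < a := ha ▸ deriv_ne hs hG hGi (mem_closedBall_self (by positivity))
  have hdc : ContinuousAt (fun w => ‖deriv G₀ w‖) y :=
    (((hG.analyticOnNhd isOpen_ball).deriv).continuousOn.continuousAt (isOpen_ball.mem_nhds (mem_ball_self hs))).norm
  have hev : ∀ᶠ w in 𝓝 y, ‖deriv G₀ w‖ ∈ Ioo (a / 2) (2 * a) := hdc.eventually_mem (by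
    rw [← ha]
    exact Ioo_mem_nhds (by linarith) (by linarith))
  obtain ⟨t₀, ht₀, hev'⟩ := Metric.eventually_nhds_iff_ball.1 hev
  obtain ⟨t, ht⟩ : ∃ t, t = min t₀ s := ⟨_, rfl⟩
  have ht0 : 0 < t := ht ▸ lt_min ht₀ hs
  have hts : ball y t ⊆ ball y s := ball_subset_ball (ht ▸ min_le_right _ _)
  have htd : ∀ w ∈ ball y t, a / 2 < ‖deriv G₀ w‖ ∧ ‖deriv G₀ w‖ < 2 * a := fun w hw =>
    hev' w (ball_subset_ball (ht ▸ min_le_left _ _) hw)
  have hK := KK_pos
  have hCK : 0 < C + KK := by linarith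
  refine ⟨min (t / (C + KK)) (κ / (2 * a)), lt_min (div_pos ht0 hCK) (div_pos hκ (by linarith)), ?_⟩
  intro m x R g hR hg hgv hgx hgs
  obtain ⟨b, hb⟩ : ∃ b, b = ‖deriv g x‖ := ⟨_, rfl⟩
  rw [← hb] at hgx hgs
  have hgi : InjOn g (ball x (2 * R)) := fun u hu u' hu' he => by
    rw [← (hgv u hu).2, ← (hgv u' hu').2, he]
  have hb0 : 0 < b := hb ▸ deriv_ne (by linarith) hg hgi (mem_closedBall_self (by linarith))
  have hRb : 0 < R * b := mul_pos hR hb0
  have hs1 : (C + KK) * (R * b) < t := by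
    have h1 := hgs.trans_le (min_le_left _ _)
    rwa [lt_div_iff₀ hCK, mul_comm] at h1
  have hs2 : 2 * a * (R * b) < κ := by
    have h1 := hgs.trans_le (min_le_right _ _)
    rwa [lt_div_iff₀ (by linarith), mul_comm] at h1
  have hmaps : MapsTo g (ball x R) (ball y t) := by
    intro u hu
    rw [mem_ball, dist_eq_norm] at hu ⊢
    have h1 : u ∈ closedBall x (2 * R / 2) := by
      rw [mem_closedBall, dist_eq_norm]
      linarith
    have h2 : x ∈ closedBall x (2 * R / 2) := mem_closedBall_self (by linarith)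
    have h3 := distort_lip (by linarith : 0 < 2 * R) hg hgi h1 h2 h2
    rw [← hb] at h3
    have h4 : KK * b * ‖u - x‖ ≤ KK * (R * b) := by
      have h5 : KK * b * ‖u - x‖ ≤ KK * b * R := mul_le_mul_of_nonneg_left hu.le (mul_pos hK hb0).le
      linarith
    have h6 : g u - y = (g u - g x) + (g x - y) := by ring
    rw [h6]
    calc ‖(g u - g x) + (g x - y)‖ ≤ ‖g u - g x‖ + ‖g x - y‖ := norm_add_le _ _
      _ ≤ KK * (R * b) + C * (R * b) := add_le_add (h3.trans h4) hgx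
      _ = (C + KK) * (R * b) := by ring
      _ < t := hs1
  have hxx : x ∈ ball x R := mem_ball_self hR
  have hgx' : g x ∈ ball y t := hmaps hxx
  have hyt : y ∈ ball y t := mem_ball_self ht0
  have hd : deriv (fun u => G₀ (g u)) x = deriv G₀ (g x) * deriv g x := by
    have h1 : HasDerivAt G₀ (deriv G₀ (g x)) (g x) :=
      (hG.differentiableAt (isOpen_ball.mem_nhds (hts hgx'))).hasDerivAt
    have h2 : HasDerivAt g (deriv g x) x :=
      (hg.differentiableAt (isOpen_ball.mem_nhds (mem_ball_self (by linarith)))).hasDerivAt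
    exact (h1.comp x h2).deriv
  have hdn : ‖deriv (fun u => G₀ (g u)) x‖ = ‖deriv G₀ (g x)‖ * b := by rw [hd, norm_mul, hb]
  refine ⟨fun u => G₀ (g u), hG.comp (hg.mono (ball_subset_ball (by linarith))) (hmaps.mono_right hts), ?_, ?_, ?_⟩
  · intro u hu
    obtain ⟨h1, h2⟩ := hGv (g u) (hts (hmaps hu))
    obtain ⟨h3, h4⟩ := hgv u (ball_subset_ball (by linarith) hu)
    refine ⟨fun j hj => ?_, ?_⟩
    · by_cases hji : j < i
      · exact h1 j hji
      · have e1 : j = (j - i) + i := by omega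
        show f^[j] (G₀ (g u)) ∈ U
        rw [e1, Function.iterate_add_apply, h2]
        exact h3 _ (by omega)
    · show f^[m + i] (G₀ (g u)) = u
      rw [Function.iterate_add_apply, h2, h4]
  · rw [hdn]
    have h1 : ‖G₀ (g x) - G₀ y‖ ≤ 2 * a * ‖g x - y‖ := by
      refine (convex_ball y t).norm_image_sub_le_of_norm_deriv_le (𝕜 := ℂ) (fun w hw => ?_) (fun w hw => ?_) hyt hgx'
      · exact hG.differentiableAt (isOpen_ball.mem_nhds (hts hw))
      · exact (htd w hw).2.le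
    rw [hGz] at h1
    have h2 := (htd (g x) hgx').1
    calc ‖G₀ (g x) - z‖ ≤ 2 * a * ‖g x - y‖ := h1
      _ ≤ 2 * a * (C * (R * b)) := mul_le_mul_of_nonneg_left hgx (by linarith)
      _ = 4 * C * (R * (a / 2 * b)) := by ring
      _ ≤ 4 * C * (R * (‖deriv G₀ (g x)‖ * b)) := by
          refine mul_le_mul_of_nonneg_left ?_ (by linarith)
          refine mul_le_mul_of_nonneg_left ?_ hR.le
          exact mul_le_mul_of_nonneg_right h2.le hb0.le
  · rw [hdn]
    have h2 := (htd (g x) hgx').2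
    calc R * (‖deriv G₀ (g x)‖ * b) ≤ R * (2 * a * b) := by
          refine mul_le_mul_of_nonneg_left ?_ hR.le
          exact mul_le_mul_of_nonneg_right h2.le hb0.le
      _ = 2 * a * (R * b) := by ring
      _ < κ := hs2

end Pool.Agent.H64.XG
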