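import Pool.Agent.H64.XG.Defs
import Pool.Agent.H64.XL.TwEx

/-!
# ROB => DIM, chapter X*: towers of every height exist over small base windows (any number of Julia critical points)

`tg_ex`. The full pull back of the base window along the orbit of `z` from the first visit has arbitrarily many critical times
(`orb`, H56/WP; LEMMA A for all critical points of `M`).
-/

set_option autoImplicit false

open Filter Topology Metric Set MeasureTheory

namespace Pool.Agent.H64.XG

open Pool.Agent.H56.UD Pool.Agent.H56.WP Pool.Agent.H55.PB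
open Pool.Agent.H44.LA (kb kb_cov)
open Pool.Agent.H66.GEO (Bl BB)
open Pool.Agent.H64.XL (b1 Wt th rr th_pos th_lt rr_pos rr_lt Bl_one bb_congr bb_succ bb_lt bb_rr P_pre)
open Pool.Agent.H66.DIM (Mn Tz)

variable {f : ℂ → ℂ} {U J P M Cr : Set ℂ} {δ : ℝ} {η : ℂ → ℂ → ℂ} {ρ : ℝ} {c z : ℂ} {θ r Mc : ℝ}

theorem tg_strong (h : PS f U J P Cr δ η ρ) (hM : Mn f P M) (hA : LAs f U J P M Cr δ z) (hzJ : z ∈ J) (hc : c ∈ Cr) (hcM : c ∈ M)
    (hc' : ∀ c' ∈ Cr, c' ∉ M → ∃ ε : ℝ, 0 < ε ∧ ∀ n, f^[n] z ∉ ball c' ε)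
    (hrc : ∀ ε : ℝ, 0 < ε → ∀ N : ℕ, ∃ n ≥ N, f^[n] z ∈ ball c ε)
    (hθ : 0 < θ) (hθr : θ < r) (hr1 : r < 1) : ∀ s : ℕ, ∃ e : ℝ, 0 < e ∧ ∀ e' ≤ e, ∀ χ0 : ℂ → ℂ,
      Wt f U J P δ c θ Mc e' χ0 → ∃ (k t : ℕ → ℕ) (cc α x : ℕ → ℂ) (Y γ : ℕ → ℂ → ℂ) (K : ℕ), Y 0 = χ0 ∧ cc 0 = c ∧
        Tg f U M P Cr z θ r s k t cc α x Y γ ∧ Wd f U J P δ K (th θ s) c e' (Y s) ∧
        (∀ v ∈ ball (0 : ℂ) 1, f^[K] (Y s v) = χ0 (BB b1 α s v)) ∧ (∀ i < s, ‖α i‖ ≤ th θ i) ∧ t 0 = t s + K := by
  have hθ1 : θ < 1 := hθr.trans hr1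
  have hr : 0 < r := hθ.trans hθr
  have hcJ : c ∈ J := h.PJ (hM.sub hcM)
  intro s
  induction s with
  | zero =>
    refine ⟨1, one_pos, ?_⟩
    intro e' _ χ0 hW
    -- the first visit
    have hop : χ0 '' ball 0 r ∈ 𝓝 c := by
      have h1 := kb_cov hW.d hW.i (v := 0) (mem_ball_self one_pos) (s := r) hr (by rw [norm_zero, zero_add]; exact hr1.le)
      rw [hW.c0] at h1
      have h2 : 0 < ‖deriv χ0 0‖ := norm_pos_iff.2 (der1 hW.d hW.i (mem_ball_self one_pos))
      exact Filter.mem_of_superset (ball_mem_nhds c (by positivity)) h1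
    obtain ⟨e1, he1, he2⟩ := Metric.mem_nhds_iff.1 hop
    have hex : ∃ n, f^[n] z ∈ χ0 '' ball 0 r := by
      obtain ⟨n, -, hn⟩ := hrc e1 he1 0
      exact ⟨n, he2 hn⟩
    classical
    obtain ⟨x0, hx0, hx1⟩ := Nat.find_spec hex
    have hx2 : ‖x0‖ < r := mem_ball_zero_iff.1 hx0
    have hx3 : x0 ∈ ball (0 : ℂ) 1 := mem_ball_zero_iff.2 (hx2.trans hr1)
    refine ⟨fun _ => 0, fun _ => Nat.find hex, fun _ => c, fun _ => 0, fun _ => x0, fun _ => χ0, fun _ => χ0, 0, rfl, rfl, ?_,
      ?_, ?_, ?_, rfl⟩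
    · refine ⟨fun _ _ => hW.d, fun _ _ => hW.i, fun _ _ => ⟨hW.c0, hc, hcM⟩, fun _ _ v hv => (hW.hU v hv).2, fun _ _ => hW.sy,
        ?_, ?_, ?_, ?_, ?_, ?_, ?_, ?_, ?_, ?_⟩
      · intro i hi
        omega
      · intro i hi
        omega
      · intro i hi
        omega
      · intro i hi
        omega
      · intro i hi
        omega
      · intro i hi
        omega
      · intro i hi v hv h1
        obtain rfl : i = 0 := by omega
        exact hW.of v h1 (mem_ball_zero_iff.1 hv)
      · intro i hi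
        obtain rfl : i = 0 := by omega
        exact ⟨hx3, hx2, hx1⟩
      · intro i hi
        omega
      · intro m hm
        exact Nat.find_min hex hm
    · refine ⟨hW.d, hW.i, ?_, ?_⟩
      · intro v hv
        exact ⟨by rw [dm_zero]; exact (hW.hU v hv).1, hW.e v hv⟩
      · exact hW.of
    · intro v hv
      rfl
    · intro i hi
      omega
  | succ s ih =>
    obtain ⟨e, he, ih⟩ := ih
    have hth := th_pos hθ s
    have hth1 := th_lt hθ hθ1 s
    have hrr := rr_pos hθ hr s
    have hrr1 := rr_lt hθ hθ1 hr hr1 s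
    have hr2 := rr_pos hθ hr (s + 1)
    have hr3 := rr_lt hθ hθ1 hr hr1 (s + 1)
    obtain ⟨K0, hK0, hkb⟩ := kb hrr hrr1
    obtain ⟨ε0, hε0, hε0δ, horb⟩ := orb h hth hth1 hrr hrr1
    obtain ⟨ε1, hε1, hlem⟩ : ∃ ε1 : ℝ, 0 < ε1 ∧ ∀ b ∈ Cr, b ∈ M → ∀ (K m : ℕ) (y a : ℂ) (ε : ℝ) (Φ g : ℂ → ℂ), y ∈ J → ε ≤ ε1 →
        Wd f U J P δ K (th θ s) y ε Φ → ‖a‖ ≤ th θ s → Φ a = b → DifferentiableOn ℂ g (ball 0 1) →
        (∀ v ∈ ball (0 : ℂ) 1, g v ∈ dm f U J δ (m + K) ∧ f^[m] (g v) = Φ v) → ¬ ‖g 0 - z‖ ≤ K0 * ‖deriv g 0‖ := by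
      have hex : ∀ b : ℂ, ∃ ε1 : ℝ, 0 < ε1 ∧ (b ∈ Cr → b ∈ M → ∀ (K m : ℕ) (y a : ℂ) (ε : ℝ) (Φ g : ℂ → ℂ), y ∈ J → ε ≤ ε1 →
        Wd f U J P δ K (th θ s) y ε Φ → ‖a‖ ≤ th θ s → Φ a = b → DifferentiableOn ℂ g (ball 0 1) →
        (∀ v ∈ ball (0 : ℂ) 1, g v ∈ dm f U J δ (m + K) ∧ f^[m] (g v) = Φ v) → ¬ ‖g 0 - z‖ ≤ K0 * ‖deriv g 0‖) := by
        intro b
        by_cases h1 : b ∈ Cr ∧ b ∈ M
        · obtain ⟨e, he, h2⟩ := hA (th θ s) K0 hth hth1 b h1.1 h1.2
          exact ⟨e, he, fun _ _ => h2⟩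
        · exact ⟨1, one_pos, fun h2 h3 => absurd ⟨h2, h3⟩ h1⟩
      choose ee hee hee2 using hex
      obtain ⟨c0, hc0, hmin⟩ := h.Cf.exists_minimalFor ee Cr ⟨c, hc⟩
      refine ⟨ee c0, hee c0, fun b h1 h2 K m y a ε Φ g h3 h4 => ?_⟩
      refine hee2 b h1 h2 K m y a ε Φ g h3 (h4.trans ?_)
      rcases le_total (ee b) (ee c0) with h5 | h5
      · exact hmin h1 h5
      · exact h5
    -- the other critical points
    obtain ⟨εc, hεc, hcc⟩ : ∃ εc : ℝ, 0 < εc ∧ ∀ c' ∈ Cr, c' ∉ M → ∀ n, f^[n] z ∉ ball c' εc := by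
      have hex : ∀ c' : ℂ, ∃ e : ℝ, 0 < e ∧ (c' ∈ Cr → c' ∉ M → ∀ n, f^[n] z ∉ ball c' e) := by
        intro c'
        by_cases h1 : c' ∈ Cr ∧ c' ∉ M
        · obtain ⟨e, he, h2⟩ := hc' c' h1.1 h1.2
          exact ⟨e, he, fun _ _ => h2⟩
        · exact ⟨1, one_pos, fun h2 h3 => absurd ⟨h2, h3⟩ h1⟩
      choose ee hee hee2 using hex
      obtain ⟨c0, hc0, hmin⟩ := h.Cf.exists_minimalFor ee Cr ⟨c, hc⟩
      refine ⟨ee c0, hee c0, fun c' h1 h2 n hn => ?_⟩
      refine hee2 c' h1 h2 n (ball_subset_ball ?_ hn)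
      rcases le_total (ee c') (ee c0) with h3 | h3
      · exact hmin h1 h3
      · exact h3
    obtain ⟨ε2, hε2, hsh⟩ := sh h hr2 hr3 hεc
    obtain ⟨e1, he1, h11, h12, h13, h14⟩ : ∃ e1 : ℝ, 0 < e1 ∧ e1 ≤ e ∧ e1 ≤ ε0 ∧ e1 ≤ ε1 ∧ e1 ≤ ε2 := by
      refine ⟨min (min e ε0) (min ε1 ε2), lt_min (lt_min he hε0) (lt_min hε1 hε2), ?_, ?_, ?_, ?_⟩
      · exact (min_le_left _ _).trans (min_le_left _ _)
      · exact (min_le_left _ _).trans (min_le_right _ _)
      · exact (min_le_right _ _).trans (min_le_left _ _)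
      · exact (min_le_right _ _).trans (min_le_right _ _)
    refine ⟨e1, he1, ?_⟩
    intro e' he' χ0 hW
    obtain ⟨k, t, cc, α, x, Y, γ, K, hY0, hcc0, hT, hWd, hf, hα, hK1⟩ := ih e' (he'.trans h11) χ0 hW
    have he'0 : 0 < e' := by
      have h1 := hW.e 0 (mem_ball_self one_pos)
      rw [hW.c0] at h1
      exact pos_of_mem_ball h1
    have hα1 : ∀ i < s, ‖α i‖ < 1 := fun i hi => (hα i hi).trans_lt (th_lt hθ hθ1 i)
    have h0 : (0 : ℂ) ∈ ball (0 : ℂ) 1 := mem_ball_self one_pos
    -- the visit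
    obtain ⟨hx1, hx2, hx3⟩ := hT.tm s le_rfl
    have hx4 : ‖x s‖ ≤ rr θ r s := bb_rr hθ hθ1 hr hr1 hα _ hx1 hx2.le
    rcases horb K c e' (Y s) (x s) z (t s) hcJ (he'.trans h12) hWd hzJ hx4 hx3.symm with ⟨g, hg1, hg2, hg3⟩ | hB
    · -- univalent: Lemma A
      refine absurd ?_ (hlem (cc s) (hT.c0 s le_rfl).2.1 (hT.c0 s le_rfl).2.2 K (t s) c 0 e' (Y s) g hcJ (he'.trans h13) hWd
        (by rw [norm_zero]; exact hth.le) (hT.c0 s le_rfl).1 hg1.diff (fun v hv => hg2 v hv))
      have h2 := (hkb g hg1.diff hg1.inj 0 (mem_closedBall_self hrr.le) (x s) (mem_closedBall_zero_iff.2 hx4)).2.2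
      rw [zero_sub, norm_neg, hg3] at h2
      have h3 : ‖x s‖ ≤ 1 := hx4.trans hrr1.le
      have h5 : K0 * ‖deriv g 0‖ * ‖x s‖ ≤ K0 * ‖deriv g 0‖ * 1 := by
        refine mul_le_mul_of_nonneg_left h3 ?_
        have := lt_of_lt_of_le one_pos hK0
        positivity
      linarith
    · -- critical
      obtain ⟨i, l, hil, g, hg1, hg2, hg3, c1, hc1, a, v, Φ', hC, x0, hx01, hx02, hx03⟩ := hB
      have hcc1 : c1 ∈ M := by
        by_contra hne
        have h1 : ‖x0‖ ≤ rr θ r (s + 1) := by
          have h2 : ‖bet a x0‖ ≤ rr θ r s := by rwa [hx02]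
          exact Real.le_sqrt_of_sq_le (bet_sq_le hrr1 hth1 hC.ca hx01 h2)
        have h3 : Φ' 0 ∈ J := by
          rw [hC.z0]
          exact h.CJ hc1
        have h4 := hsh (K + l + 1) Φ' c hcJ hC.wd.diff hC.wd.inj (fun v hv => ⟨(hC.wd.val v hv).1,
          ball_subset_ball (he'.trans h14) (hC.wd.val v hv).2⟩) ⟨0, mem_closedBall_self hr2.le, h3⟩ x0
          (mem_closedBall_zero_iff.2 h1) 0 (mem_closedBall_self hr2.le)
        rw [hx03, hC.z0] at h4
        exact hcc c1 hc1 hne i (by rw [mem_ball, dist_eq_norm]; exact h4)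
      obtain ⟨α', hα'⟩ : ∃ α' : ℕ → ℂ, α' = Function.update α s a := ⟨_, rfl⟩
      have ha1 : α' s = a := by
        rw [hα']
        exact Function.update_self s a α
      have ha2 : ∀ i < s, α' i = α i := fun i hi => by
        rw [hα']
        exact Function.update_of_ne (Nat.ne_of_lt hi) a α
      have hbb : ∀ i ≤ s, BB b1 α' i = BB b1 α i := fun i hi => bb_congr fun j hj => ha2 j (by omega)
      have hbs : ∀ w, BB b1 α' (s + 1) w = BB b1 α s (bet a w) := by
        intro w
        rw [bb_succ, ha1, hbb s le_rfl]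
      have haθ : ‖a‖ ≤ th θ s := hC.ca
      have ha' : ‖a‖ < 1 := haθ.trans_lt hth1
      have hstep : ∀ w ∈ ball (0 : ℂ) 1, f^[l + 1] (Φ' w) = Y s (bet a w) := by
        intro w hw
        rw [Function.iterate_succ_apply, (hC.val w hw).2]
        exact (hg2 _ (bet_lt ha' hw)).2
      have hbl : ∀ w ∈ ball (0 : ℂ) 1, bet a w ∈ ball (0 : ℂ) 1 := fun w hw => bet_lt ha' hw
      have hfull : ∀ w ∈ ball (0 : ℂ) 1, f^[K + l + 1] (Φ' w) = χ0 (BB b1 α' (s + 1) w) := by
        intro w hw
        rw [show K + l + 1 = K + (l + 1) by ring, Function.iterate_add_apply, hstep w hw, hbs]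
        exact hf _ (hbl w hw)
      refine ⟨Function.update k s (l + 1), Function.update t (s + 1) i, Function.update cc (s + 1) c1, α',
        Function.update x (s + 1) x0, Function.update Y (s + 1) Φ', Function.update γ s g, K + l + 1, ?_, ?_, ?_, ?_, ?_, ?_, ?_⟩
      · rw [Function.update_of_ne (by omega)]
        exact hY0
      · rw [Function.update_of_ne (by omega)]
        exact hcc0
      · have hYo : ∀ j ≤ s, Function.update Y (s + 1) Φ' j = Y j := fun j hj => Function.update_of_ne (by omega) _ _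
        have hYn : Function.update Y (s + 1) Φ' (s + 1) = Φ' := Function.update_self _ _ _
        have hto : ∀ j ≤ s, Function.update t (s + 1) i j = t j := fun j hj => Function.update_of_ne (by omega) _ _
        have htn : Function.update t (s + 1) i (s + 1) = i := Function.update_self _ _ _
        have hxo : ∀ j ≤ s, Function.update x (s + 1) x0 j = x j := fun j hj => Function.update_of_ne (by omega) _ _
        have hxn : Function.update x (s + 1) x0 (s + 1) = x0 := Function.update_self _ _ _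
        have hko : ∀ j < s, Function.update k s (l + 1) j = k j := fun j hj => Function.update_of_ne (by omega) _ _
        have hkn : Function.update k s (l + 1) s = l + 1 := Function.update_self _ _ _
        have hco : ∀ j ≤ s, Function.update cc (s + 1) c1 j = cc j := fun j hj => Function.update_of_ne (by omega) _ _
        have hcn : Function.update cc (s + 1) c1 (s + 1) = c1 := Function.update_self _ _ _
        have hgo : ∀ j < s, Function.update γ s g j = γ j := fun j hj => Function.update_of_ne (by omega) _ _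
        have hgn : Function.update γ s g s = g := Function.update_self _ _ _
        refine ⟨?_, ?_, ?_, ?_, ?_, ?_, ?_, ?_, ?_, ?_, ?_, ?_, ?_, ?_, ?_⟩
        · intro j hj
          rcases Nat.lt_or_ge j (s + 1) with h1 | h1
          · rw [hYo j (by omega)]
            exact hT.d j (by omega)
          · obtain rfl : j = s + 1 := by omega
            rw [hYn]
            exact hC.wd.diff
        · intro j hj
          rcases Nat.lt_or_ge j (s + 1) with h1 | h1
          · rw [hYo j (by omega)]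
            exact hT.i j (by omega)
          · obtain rfl : j = s + 1 := by omega
            rw [hYn]
            exact hC.wd.inj
        · intro j hj
          rcases Nat.lt_or_ge j (s + 1) with h1 | h1
          · rw [hYo j (by omega), hco j (by omega)]
            exact hT.c0 j (by omega)
          · obtain rfl : j = s + 1 := by omega
            rw [hYn, hcn]
            exact ⟨hC.z0, hc1, hcc1⟩
        · intro j hj
          rcases Nat.lt_or_ge j (s + 1) with h1 | h1
          · rw [hYo j (by omega)]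
            exact hT.hU j (by omega)
          · obtain rfl : j = s + 1 := by omega
            rw [hYn]
            exact fun w hw => (hC.val w hw).1
        · intro j hj
          rcases Nat.lt_or_ge j (s + 1) with h1 | h1
          · rw [hYo j (by omega)]
            exact hT.sy j (by omega)
          · obtain rfl : j = s + 1 := by omega
            rw [hYn]
            intro w hw
            have hw' : -w ∈ ball (0 : ℂ) 1 := by
              rw [mem_ball_zero_iff, norm_neg]
              exact mem_ball_zero_iff.1 hw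
            rw [(hC.val _ hw').2, (hC.val _ hw).2, bet_neg]
        · intro j hj
          rcases Nat.lt_or_ge j s with h1 | h1
          · rw [hko j h1, hto (j + 1) (by omega), hto j (by omega)]
            exact hT.kp j h1
          · obtain rfl : j = s := by omega
            rw [hkn, htn, hto j le_rfl]
            omega
        · intro j hj
          rcases Nat.lt_or_ge j s with h1 | h1
          · rw [hgo j h1]
            exact hT.gd j h1
          · obtain rfl : j = s := by omega
            rw [hgn]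
            exact hg1.diff
        · intro j hj w hw
          rcases Nat.lt_or_ge j s with h1 | h1
          · rw [hko j h1, hgo j h1, hYo j (by omega)]
            exact hT.gs j h1 w hw
          · obtain rfl : j = s := by omega
            rw [hkn, hgn, hYo j le_rfl]
            refine ⟨fun i hi => (hg2 w hw).1.1 i (by omega), (hg2 w hw).2⟩
        · intro j hj w hw
          rcases Nat.lt_or_ge j s with h1 | h1
          · rw [hgo j h1, hYo (j + 1) (by omega), ha2 j h1]
            exact hT.st j h1 w hw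
          · obtain rfl : j = s := by omega
            rw [hgn, hYn, ha1, Bl_one]
            exact (hC.val w hw).2
        · intro j hj
          rcases Nat.lt_or_ge j s with h1 | h1
          · rw [ha2 j h1]
            exact hT.al j h1
          · obtain rfl : j = s := by omega
            rw [ha1]
            exact ha'
        · intro j hj
          rcases Nat.lt_or_ge j s with h1 | h1
          · rw [ha2 j h1, hbb j h1.le]
            exact hT.cv j h1
          · obtain rfl : j = s := by omega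
            rw [ha1, hbb j le_rfl]
            by_contra hcon
            push Not at hcon
            have h2 : a ∈ ball (0 : ℂ) 1 := mem_ball_zero_iff.2 ha'
            have h3 := bb_lt hα1 a h2
            have h4 := hW.of _ hcon (mem_ball_zero_iff.1 h3)
            rw [← hf a h2] at h4
            have h5 : bet a 0 = a := by
              unfold bet
              simp
            have h6 := hstep 0 h0
            rw [h5, hC.z0] at h6
            rw [← h6] at h4
            exact h4 (P_it h K (P_it h (l + 1) (hM.sub hcc1)))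
        · intro j hj w hw h2
          rcases Nat.lt_or_ge j (s + 1) with h1 | h1
          · rw [hYo j (by omega)]
            rw [hbb j (by omega)] at h2
            exact hT.of j (by omega) w hw h2
          · obtain rfl : j = s + 1 := by omega
            rw [hYn]
            refine P_pre h (k := K + l + 1) ?_
            rw [hfull w hw]
            refine hW.of _ h2 ?_
            rw [hbs]
            exact mem_ball_zero_iff.1 (bb_lt hα1 _ (hbl w hw))
        · intro j hj
          rcases Nat.lt_or_ge j (s + 1) with h1 | h1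
          · rw [hYo j (by omega), hto j (by omega), hxo j (by omega), hbb j (by omega)]
            exact hT.tm j (by omega)
          · obtain rfl : j = s + 1 := by omega
            rw [hYn, htn, hxn]
            refine ⟨mem_ball_zero_iff.2 hx01, ?_, hx03⟩
            rw [hbs, hx02]
            exact hx2
        · intro j hj
          rcases Nat.lt_or_ge j s with h1 | h1
          · rw [hgo j h1, hxo j (by omega), hto (j + 1) (by omega)]
            exact hT.tg j h1
          · obtain rfl : j = s := by omega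
            rw [hgn, hxo j le_rfl, htn]
            exact hg3
        · rw [hto 0 (by omega), hYo 0 (by omega)]
          exact hT.fe
      · rw [Function.update_self]
        exact hC.wd
      · intro w hw
        rw [Function.update_self]
        exact hfull w hw
      · intro j hj
        rcases Nat.lt_or_ge j s with h1 | h1
        · rw [ha2 j h1]
          exact hα j h1
        · obtain rfl : j = s := by omega
          rw [ha1]
          exact haθ
      · rw [Function.update_of_ne (by omega), Function.update_self]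
        omega

/-- towers of every height exist over all sufficiently small base windows -/
theorem tg_ex (h : PS f U J P Cr δ η ρ) (hM : Mn f P M) (hA : LAs f U J P M Cr δ z) (hzJ : z ∈ J) (hc : c ∈ Cr) (hcM : c ∈ M)
    (hc' : ∀ c' ∈ Cr, c' ∉ M → ∃ ε : ℝ, 0 < ε ∧ ∀ n, f^[n] z ∉ ball c' ε)
    (hrc : ∀ ε : ℝ, 0 < ε → ∀ N : ℕ, ∃ n ≥ N, f^[n] z ∈ ball c ε)
    (hθ : 0 < θ) (hθr : θ < r) (hr1 : r < 1) : ∀ s : ℕ, ∃ e : ℝ, 0 < e ∧ ∀ χ0 : ℂ → ℂ,
      Wt f U J P δ c θ Mc e χ0 → ∃ (k t : ℕ → ℕ) (cc α x : ℕ → ℂ) (Y γ : ℕ → ℂ → ℂ), Y 0 = χ0 ∧ cc 0 = c ∧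
        Tg f U M P Cr z θ r s k t cc α x Y γ := by
  intro s
  obtain ⟨e, he, h1⟩ := tg_strong h hM hA hzJ hc hcM hc' hrc hθ hθr hr1 s
  refine ⟨e, he, fun χ0 hW => ?_⟩
  obtain ⟨k, t, cc, α, x, Y, γ, K, h2, h3, h4, -⟩ := h1 e le_rfl χ0 hW
  exact ⟨k, t, cc, α, x, Y, γ, h2, h3, h4⟩

end Pool.Agent.H64.XG
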